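import Pool.Agent.Helper9.TR.Cubic

/-!
# Surfaces of weighted degree at most the sum of the weights are uniruled: the theorem
-/

set_option autoImplicit false

namespace Pool.Agent.Helper9.TR

open IntermediateField Pool.Agent.Helper75.QC Pool.Agent.Helper40.SD

variable {Ω N : Type} [Field Ω] [Field N] [Algebra Ω N]

theorem uni_max [IsAlgClosed Ω] (w : Fin 3 → ℕ) (h1 : w 1 ≤ w 0) (h2 : w 2 ≤ w 0) (h0 : 0 < w 0)
    (F : MvPolynomial (Fin 3) Ω) (hF : F ≠ 0) (hd : WLE w (∑ i, w i) F) (z x y : N)
    (hz : MvPolynomial.aeval ![z, x, y] F = 0) :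
    Uniruled Ω (adjoin Ω {x, y, z} : IntermediateField Ω N) 2 := by
  classical
  have hd' : ∀ m ∈ F.support, w 0 * m 0 + w 1 * m 1 + w 2 * m 2 ≤ w 0 + w 1 + w 2 := by
    intro m hm
    have h := hd m hm
    rwa [Fin.sum_univ_three, Fin.sum_univ_three] at h
  by_cases hc : MvPolynomial.coeff (Finsupp.single 0 3) F = 0
  · refine uni_deg_two w F hF hd ?_ ?_ z x y hz
    · intro m hm
      have h3 := hd' m hm
      by_contra h4
      have h5 : 3 ≤ m 0 := by omega
      have h6 : w 0 * 3 ≤ w 0 * m 0 := Nat.mul_le_mul_left _ h5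
      have h7 : w 1 = w 0 := by omega
      have h8 : w 2 = w 0 := by omega
      rw [h7, h8] at h3
      have h9 : w 0 * (m 0 + m 1 + m 2) ≤ w 0 * 3 := by
        rw [mul_add, mul_add]
        omega
      have h10 := Nat.le_of_mul_le_mul_left h9 h0
      have h11 : m = Finsupp.single 0 3 := by
        ext i
        fin_cases i
        · simp
          omega
        · simp
          omega
        · simp
          omega
      rw [h11] at hm
      exact (MvPolynomial.mem_support_iff.1 hm) hc
    · intro m hm h3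
      have h4 := hd' m hm
      rw [h3] at h4
      omega
  · have h3 := hd' _ (MvPolynomial.mem_support_iff.2 hc)
    simp only [Finsupp.single_eq_same, ne_eq, one_ne_zero, not_false_eq_true,
      Finsupp.single_eq_of_ne, mul_zero, add_zero] at h3
    have e1 : (Finsupp.single (0 : Fin 3) 3) 1 = 0 := by simp
    have e2 : (Finsupp.single (0 : Fin 3) 3) 2 = 0 := by simp
    rw [e2, mul_zero, add_zero] at h3
    have h7 : w 1 = w 0 := by omega
    have h8 : w 2 = w 0 := by omega
    obtain ⟨ρ, F', hF', hd1, hval⟩ := exists_change F hF (fun m hm => by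
      have h4 := hd' m hm
      rw [h7, h8] at h4
      have h9 : w 0 * (m 0 + m 1 + m 2) ≤ w 0 * 3 := by
        rw [mul_add, mul_add]
        omega
      exact Nat.le_of_mul_le_mul_left h9 h0) hc
    have h5 := hval N z x y
    rw [hz] at h5
    have h6 := uni_deg_two (fun _ => 1) F' hF' (by
      intro m hm
      have h9 := (hd1 m hm).1
      rw [Fin.sum_univ_three, Fin.sum_univ_three]
      simp only [one_mul]
      exact h9) (fun m hm => (hd1 m hm).2) (fun _ _ _ => by norm_num) x _ y h5
    refine uniruled_adjoin (AlgHom.id Ω N) _ _ ?_ h6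
    have mz : z - algebraMap Ω N ρ * x ∈ adjoin Ω {z - algebraMap Ω N ρ * x, y, x} :=
      subset_adjoin _ _ (by simp)
    have my : y ∈ adjoin Ω {z - algebraMap Ω N ρ * x, y, x} := subset_adjoin _ _ (by simp)
    have mx : x ∈ adjoin Ω {z - algebraMap Ω N ρ * x, y, x} := subset_adjoin _ _ (by simp)
    rintro a (rfl | rfl | rfl)
    · exact mx
    · exact my
    · have h9 := add_mem mz (mul_mem (IntermediateField.algebraMap_mem _ ρ) mx)
      rw [sub_add_cancel] at h9
      exact h9

/-- **Surfaces of weighted degree at most the sum of the weights.** -/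
theorem uni_surface [IsAlgClosed Ω] (w : Fin 3 → ℕ) (hw : 0 < ∑ i, w i)
    (F : MvPolynomial (Fin 3) Ω) (hF : F ≠ 0) (hd : WLE w (∑ i, w i) F) (x : Fin 3 → N)
    (h0 : MvPolynomial.aeval x F = 0) :
    Uniruled Ω (adjoin Ω (Set.range x) : IntermediateField Ω N) 2 := by
  classical
  obtain ⟨i, hi⟩ := Finite.exists_max w
  have hi0 : 0 < w i := by
    by_contra h
    have h1 : w i = 0 := by omega
    have h2 : ∀ j, w j = 0 := fun j => by
      have := hi j
      omega
    rw [Fin.sum_univ_three, h2, h2, h2] at hw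
    omega
  set e : Fin 3 ≃ Fin 3 := Equiv.swap 0 i with he
  have hs : e.symm = e := Equiv.symm_swap 0 i
  have he0 : e.symm 0 = i := by rw [hs, he, Equiv.swap_apply_left]
  have hsum : ∑ j, (w ∘ e.symm) j = ∑ j, w j := Equiv.sum_comp e.symm w
  have h1 : Uniruled Ω (adjoin Ω {(x ∘ e.symm) 1, (x ∘ e.symm) 2, (x ∘ e.symm) 0} :
      IntermediateField Ω N) 2 := by
    refine uni_max (w ∘ e.symm) ?_ ?_ ?_ (MvPolynomial.rename e F) ?_ ?_ _ _ _ ?_
    · simp only [Function.comp_apply, he0]
      exact hi _
    · simp only [Function.comp_apply, he0]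
      exact hi _
    · simp only [Function.comp_apply, he0]
      exact hi0
    · intro h
      exact hF (MvPolynomial.rename_injective _ e.injective (h.trans (map_zero _).symm))
    · rw [hsum]
      exact hd.rename e
    · have h2 : ![(x ∘ e.symm) 0, (x ∘ e.symm) 1, (x ∘ e.symm) 2] = x ∘ e.symm := by
        funext j
        fin_cases j <;> rfl
      rw [h2, MvPolynomial.aeval_rename]
      have h3 : (x ∘ e.symm) ∘ e = x := by
        funext j
        simp
      rw [h3, h0]
  have h4 : ({(x ∘ e.symm) 1, (x ∘ e.symm) 2, (x ∘ e.symm) 0} : Set N) = Set.range x := by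
    rw [← e.symm.surjective.range_comp x]
    ext a
    constructor
    · rintro (rfl | rfl | rfl)
      · exact ⟨1, rfl⟩
      · exact ⟨2, rfl⟩
      · exact ⟨0, rfl⟩
    · rintro ⟨j, rfl⟩
      fin_cases j
      · exact Or.inr (Or.inr rfl)
      · exact Or.inl rfl
      · exact Or.inr (Or.inl rfl)
  rwa [h4] at h1

end Pool.Agent.Helper9.TR
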