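import Pool.Agent.Helper9.TR.Surface

/-!
# The surfaces `f - r ^ t g + r ^ (s + t) h = 0` and `A u ^ n = B`, and the threefolds
`v ^ s (1 - v) ^ t g ^ (s + t) = σ ^ n f ^ s h ^ t`
-/

set_option autoImplicit false

namespace Pool.Agent.Helper9.TR

open IntermediateField Pool.Agent.Helper75.QC Pool.Agent.Helper40.SD

variable {Ω N : Type} [Field Ω] [Field N] [Algebra Ω N]

/-- The weighted degree of `r ^ k * f(x, y)` is at most `D`; the weights of `x`, `y`, `r` are
`a`, `b`, `c`. -/
def Deg (a b c k D : ℕ) (f : MvPolynomial (Fin 2) Ω) : Prop :=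
  ∀ m ∈ f.support, a * m 0 + b * m 1 + c * k ≤ D

/-- `r ^ k * f(x, y)` -/
noncomputable def term (k : ℕ) (f : MvPolynomial (Fin 2) Ω) : MvPolynomial (Fin 3) Ω :=
  MvPolynomial.X 2 ^ k * MvPolynomial.rename Fin.castSucc f

theorem aeval_term (k : ℕ) (f : MvPolynomial (Fin 2) Ω) (x y r : N) :
    MvPolynomial.aeval ![x, y, r] (term k f) = r ^ k * MvPolynomial.aeval ![x, y] f := by
  rw [term, map_mul, map_pow, MvPolynomial.aeval_X, MvPolynomial.aeval_rename]
  congr 3
  funext i
  fin_cases i <;> rfl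

theorem zero_term (k : ℕ) (f : MvPolynomial (Fin 2) Ω) :
    MvPolynomial.aeval (![MvPolynomial.X 0, MvPolynomial.X 1, 0] : Fin 3 → MvPolynomial (Fin 2) Ω)
      (term k f) = if k = 0 then f else 0 := by
  have h1 : (![MvPolynomial.X 0, MvPolynomial.X 1, 0] : Fin 3 → MvPolynomial (Fin 2) Ω) ∘
      Fin.castSucc = MvPolynomial.X := by
    funext i
    fin_cases i <;> rfl
  rw [term, map_mul, map_pow, MvPolynomial.aeval_X, MvPolynomial.aeval_rename, h1,
    MvPolynomial.aeval_X_left, AlgHom.id_apply]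
  split
  · rename_i h
    rw [h, pow_zero, one_mul]
  · rename_i h
    change (0 : MvPolynomial (Fin 2) Ω) ^ k * f = 0
    rw [zero_pow h, zero_mul]

theorem wle_term {a b c k D : ℕ} {f : MvPolynomial (Fin 2) Ω} (h : Deg a b c k D f) :
    WLE ![a, b, c] D (term k f) := by
  classical
  intro m hm
  obtain ⟨m1, h1, m2, h2, rfl⟩ := Finset.mem_add.1 (MvPolynomial.support_mul _ _ hm)
  have e1 : m1 = Finsupp.single 2 k := by
    rw [MvPolynomial.support_X_pow, Finset.mem_singleton] at h1
    exact h1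
  rw [MvPolynomial.support_rename_of_injective (Fin.castSucc_injective 2), Finset.mem_image] at h2
  obtain ⟨m', hm', rfl⟩ := h2
  subst e1
  have h3 := h m' hm'
  have i0 : (Finsupp.mapDomain (Fin.castSucc (n := 2)) m') 0 = m' 0 :=
    Finsupp.mapDomain_apply (Fin.castSucc_injective 2) m' 0
  have i1 : (Finsupp.mapDomain (Fin.castSucc (n := 2)) m') 1 = m' 1 :=
    Finsupp.mapDomain_apply (Fin.castSucc_injective 2) m' 1
  have i2 : (Finsupp.mapDomain (Fin.castSucc (n := 2)) m') 2 = 0 := by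
    refine Finsupp.mapDomain_notin_range m' 2 ?_
    rintro ⟨j, hj⟩
    fin_cases j
    · exact absurd hj (by decide)
    · exact absurd hj (by decide)
  rw [Fin.sum_univ_three]
  simp only [Finsupp.add_apply, i0, i1, i2, Matrix.cons_val_zero, Matrix.cons_val_one,
    Matrix.cons_val_two, Matrix.tail_cons, Matrix.head_cons, Finsupp.single_eq_same]
  have j0 : (Finsupp.single (2 : Fin 3) k) 0 = 0 := by simp
  have j1 : (Finsupp.single (2 : Fin 3) k) 1 = 0 := by simp
  rw [j0, j1, zero_add, zero_add, add_zero]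
  exact h3

theorem WLE.add {ι : Type} [Fintype ι] {w : ι → ℕ} {D : ℕ} {F G : MvPolynomial ι Ω}
    (hF : WLE w D F) (hG : WLE w D G) : WLE w D (F + G) := by
  classical
  intro m hm
  rcases Finset.mem_union.1 (MvPolynomial.support_add hm) with h | h
  · exact hF m h
  · exact hG m h

theorem WLE.neg {ι : Type} [Fintype ι] {w : ι → ℕ} {D : ℕ} {F : MvPolynomial ι Ω}
    (hF : WLE w D F) : WLE w D (-F) := by
  intro m hm
  rw [MvPolynomial.support_neg] at hm
  exact hF m hm

theorem sum_three (a b c : ℕ) : ∑ i, (![a, b, c] : Fin 3 → ℕ) i = a + b + c := by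
  rw [Fin.sum_univ_three]
  rfl

theorem range_three (x y r : N) : Set.range ![x, y, r] = {x, y, r} := by
  ext a
  constructor
  · rintro ⟨i, rfl⟩
    fin_cases i
    · exact Or.inl rfl
    · exact Or.inr (Or.inl rfl)
    · exact Or.inr (Or.inr rfl)
  · rintro (rfl | rfl | rfl)
    · exact ⟨0, rfl⟩
    · exact ⟨1, rfl⟩
    · exact ⟨2, rfl⟩

/-- **The surfaces `A u ^ n = B`.** -/
theorem uni_binomial [IsAlgClosed Ω] {a b c n : ℕ} (hpos : 0 < a + b + c) (hn : 0 < n)
    (A B : MvPolynomial (Fin 2) Ω) (hA : Deg a b c n (a + b + c) A)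
    (hB : Deg a b c 0 (a + b + c) B) (x y u : N) (hB0 : MvPolynomial.aeval ![x, y] B ≠ 0)
    (h : u ^ n * MvPolynomial.aeval ![x, y] A = MvPolynomial.aeval ![x, y] B) :
    Uniruled Ω (adjoin Ω {x, y, u} : IntermediateField Ω N) 2 := by
  rw [← range_three]
  refine uni_surface ![a, b, c] (by rw [sum_three]; exact hpos) (term n A + -term 0 B) ?_ ?_ _ ?_
  · intro h0
    have h1 := congrArg (MvPolynomial.aeval (![MvPolynomial.X 0, MvPolynomial.X 1, 0] :
      Fin 3 → MvPolynomial (Fin 2) Ω)) h0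
    rw [map_add, map_neg, zero_term, zero_term, if_neg hn.ne', if_pos rfl, zero_add,
      map_zero, neg_eq_zero] at h1
    apply hB0
    rw [h1, map_zero]
  · rw [sum_three]
    exact (wle_term hA).add (wle_term hB).neg
  · rw [map_add, map_neg, aeval_term, aeval_term, pow_zero, one_mul, h, add_neg_cancel]

/-- **The surfaces `f + r ^ (s + t) h = r ^ t g`.** -/
theorem uni_trinomial [IsAlgClosed Ω] {a b c s t : ℕ} (hpos : 0 < a + b + c) (ht : 0 < t)
    (f g h : MvPolynomial (Fin 2) Ω) (hf : Deg a b c 0 (a + b + c) f)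
    (hg : Deg a b c t (a + b + c) g) (hh : Deg a b c (s + t) (a + b + c) h) (x y r : N)
    (hf0 : MvPolynomial.aeval ![x, y] f ≠ 0)
    (heq : MvPolynomial.aeval ![x, y] f + r ^ (s + t) * MvPolynomial.aeval ![x, y] h =
      r ^ t * MvPolynomial.aeval ![x, y] g) :
    Uniruled Ω (adjoin Ω {x, y, r} : IntermediateField Ω N) 2 := by
  rw [← range_three]
  refine uni_surface ![a, b, c] (by rw [sum_three]; exact hpos)
    (term 0 f + -term t g + term (s + t) h) ?_ ?_ _ ?_
  · intro h0
    have h1 := congrArg (MvPolynomial.aeval (![MvPolynomial.X 0, MvPolynomial.X 1, 0] :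
      Fin 3 → MvPolynomial (Fin 2) Ω)) h0
    rw [map_add, map_add, map_neg, zero_term, zero_term, zero_term, if_neg ht.ne', if_pos rfl,
      if_neg (by omega), neg_zero, add_zero, add_zero, map_zero] at h1
    apply hf0
    rw [h1, map_zero]
  · rw [sum_three]
    exact ((wle_term hf).add (wle_term hg).neg).add (wle_term hh)
  · rw [map_add, map_add, map_neg, aeval_term, aeval_term, aeval_term, pow_zero, one_mul, ← heq]
    ring

end Pool.Agent.Helper9.TR
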