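import Pool.Agent.Helper9.TR.Three

/-!
# The threefolds `v ^ s (1 - v) ^ t g ^ (s + t) = σ ^ n f ^ s h ^ t` are uniruled
-/

set_option autoImplicit false

namespace Pool.Agent.Helper9.TR

open IntermediateField Pool.Agent.Helper75.QC Pool.Agent.Helper40.SD

variable {Ω N : Type} [Field Ω] [Field N] [Algebra Ω N]

/-- roots of two related elements -/
theorem exists_common {E : Type} [Field E] {s t : ℕ} (hst : s.Coprime t) (P Q : E) (hP : P ≠ 0)
    (hQ : Q ≠ 0) (h : P ^ s = Q ^ t) : ∃ r : E, r ≠ 0 ∧ r ^ t = P ∧ r ^ s = Q := by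
  have h1 : (s : ℤ) * s.gcdA t + t * s.gcdB t = 1 := by
    have h2 := Nat.gcd_eq_gcd_ab s t
    rw [hst.gcd_eq_one] at h2
    exact_mod_cast h2.symm
  set A := s.gcdA t
  set B := s.gcdB t
  refine ⟨Q ^ A * P ^ B, mul_ne_zero (zpow_ne_zero _ hQ) (zpow_ne_zero _ hP), ?_, ?_⟩
  · have e1 : (Q ^ A) ^ t = P ^ ((s : ℤ) * A) := by
      rw [zpow_mul, zpow_natCast, h, ← zpow_natCast, ← zpow_natCast, ← zpow_mul, ← zpow_mul,
        mul_comm]
    have e2 : (P ^ B) ^ t = P ^ ((t : ℤ) * B) := by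
      rw [← zpow_natCast, ← zpow_mul, mul_comm]
    rw [mul_pow, e1, e2, ← zpow_add₀ hP, h1, zpow_one]
  · have e1 : (P ^ B) ^ s = Q ^ ((t : ℤ) * B) := by
      rw [zpow_mul, zpow_natCast, ← h, ← zpow_natCast, ← zpow_natCast, ← zpow_mul, ← zpow_mul,
        mul_comm]
    have e2 : (Q ^ A) ^ s = Q ^ ((s : ℤ) * A) := by
      rw [← zpow_natCast, ← zpow_mul, mul_comm]
    rw [mul_pow, e1, e2, ← zpow_add₀ hQ, h1, zpow_one]

theorem Deg.map {M : Type} [Field M] [Algebra Ω M] {a b c k D : ℕ} {f : MvPolynomial (Fin 2) Ω}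
    (h : Deg a b c k D f) : Deg a b c k D (MvPolynomial.map (algebraMap Ω M) f) :=
  fun m hm => h m (MvPolynomial.support_map_subset _ _ hm)

theorem Deg.mul_C {a b c k D : ℕ} {f : MvPolynomial (Fin 2) Ω}
    (h : Deg a b c k D f) (κ : Ω) : Deg a b c k D (MvPolynomial.C κ * f) := by
  intro m hm
  refine h m ?_
  rw [MvPolynomial.mem_support_iff, MvPolynomial.coeff_C_mul] at hm
  exact MvPolynomial.mem_support_iff.2 (right_ne_zero_of_mul hm)

/-- **The threefolds.** -/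
theorem uni_three [IsAlgClosed Ω] {a b c s t n : ℕ} (hpos : 0 < a + b + c) (hst : s.Coprime t)
    (hs : 0 < s) (ht : 0 < t) (f g h : MvPolynomial (Fin 2) Ω)
    (hf : Deg a b c 0 (a + b + c) f) (hg : Deg a b c t (a + b + c) g)
    (hh : Deg a b c (s + t) (a + b + c) h) (x y v σ : N)
    (hf0 : MvPolynomial.aeval ![x, y] f ≠ 0) (hg0 : MvPolynomial.aeval ![x, y] g ≠ 0)
    (hh0 : MvPolynomial.aeval ![x, y] h ≠ 0) (hσ : σ ≠ 0) (hv0 : v ≠ 0) (hv1 : 1 - v ≠ 0)
    (heq : v ^ s * (1 - v) ^ t * MvPolynomial.aeval ![x, y] g ^ (s + t) =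
      σ ^ n * (MvPolynomial.aeval ![x, y] f ^ s * MvPolynomial.aeval ![x, y] h ^ t)) :
    Uniruled Ω (adjoin Ω {x, y, v, σ} : IntermediateField Ω N) 3 := by
  classical
  set E := AlgebraicClosure N
  let ι : N →ₐ[Ω] E := IsScalarTower.toAlgHom Ω N E
  set M : IntermediateField Ω E := AF Ω {ι σ} with hM
  have hσM : ι σ ∈ M := subset_AF _ (by simp)
  obtain ⟨κ, hκ⟩ := IsAlgClosed.exists_pow_nat_eq ((ι σ) ^ n) hs
  have hκM : κ ∈ M := AF_root hs (by
    rw [hκ]
    exact pow_mem hσM n)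
  have hισ : ι σ ≠ 0 := (map_ne_zero ι).2 hσ
  have hκ0 : κ ≠ 0 := by
    rintro rfl
    rw [zero_pow hs.ne'] at hκ
    exact pow_ne_zero n hισ hκ.symm
  have hval : ∀ p : MvPolynomial (Fin 2) Ω, MvPolynomial.aeval ![ι x, ι y]
      (MvPolynomial.map (algebraMap Ω M) p) = ι (MvPolynomial.aeval ![x, y] p) := by
    intro p
    rw [MvPolynomial.aeval_map_algebraMap, map_aeval75 ι x y p]
  set F := ι (MvPolynomial.aeval ![x, y] f) with hF
  set G := ι (MvPolynomial.aeval ![x, y] g) with hG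
  set H := ι (MvPolynomial.aeval ![x, y] h) with hH
  have hF0 : F ≠ 0 := (map_ne_zero ι).2 hf0
  have hG0 : G ≠ 0 := (map_ne_zero ι).2 hg0
  have hH0 : H ≠ 0 := (map_ne_zero ι).2 hh0
  have hV0 : ι v ≠ 0 := (map_ne_zero ι).2 hv0
  have hV1 : 1 - ι v ≠ 0 := by
    have h1 : ι (1 - v) ≠ 0 := (map_ne_zero ι).2 hv1
    rwa [map_sub, map_one] at h1
  have heq' : ι v ^ s * (1 - ι v) ^ t * G ^ (s + t) = κ ^ s * (F ^ s * H ^ t) := by
    have h1 := congrArg ι heq
    rw [map_mul, map_mul, map_pow, map_pow, map_pow, map_mul, map_mul, map_pow, map_pow, map_pow,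
      map_sub, map_one] at h1
    rw [hκ, hF, hG, hH]
    exact h1
  obtain ⟨r, hr0, hrt, hrs⟩ := exists_common hst (κ * F / (ι v * G)) ((1 - ι v) * G / H)
    (div_ne_zero (mul_ne_zero hκ0 hF0) (mul_ne_zero hV0 hG0))
    (div_ne_zero (mul_ne_zero hV1 hG0) hH0) (by
      rw [div_pow, div_pow, div_eq_div_iff (pow_ne_zero _ (mul_ne_zero hV0 hG0))
        (pow_ne_zero _ hH0), mul_pow, mul_pow, mul_pow]
      rw [pow_add] at heq'
      linear_combination -heq')
  have hU : Uniruled M (adjoin M {ι x, ι y, r} : IntermediateField M E) 2 := by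
    refine uni_trinomial hpos ht (s := s) (MvPolynomial.C (⟨κ, hκM⟩ : M) *
      MvPolynomial.map (algebraMap Ω M) f) (MvPolynomial.map (algebraMap Ω M) g)
      (MvPolynomial.map (algebraMap Ω M) h) (hf.map.mul_C _) hg.map hh.map (ι x) (ι y) r ?_ ?_
    · rw [map_mul, MvPolynomial.aeval_C, hval]
      exact mul_ne_zero hκ0 hF0
    · rw [map_mul, MvPolynomial.aeval_C, hval, hval, hval]
      change κ * F + r ^ (s + t) * H = r ^ t * G
      have h1 : r ^ t * (ι v * G) = κ * F := by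
        rw [hrt, div_mul_cancel₀ _ (mul_ne_zero hV0 hG0)]
      have h2 : r ^ s * H = (1 - ι v) * G := by
        rw [hrs, div_mul_cancel₀ _ hH0]
      rw [pow_add]
      linear_combination -h1 + r ^ t * h2
  have hU' : Uniruled M (adjoin M (ι '' {x, y, v}) : IntermediateField M E) 2 := by
    refine uniruled_adjoin (AlgHom.id M E) _ _ ?_ hU
    have mx : ι x ∈ adjoin M {ι x, ι y, r} := subset_adjoin _ _ (by simp)
    have my : ι y ∈ adjoin M {ι x, ι y, r} := subset_adjoin _ _ (by simp)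
    have mr : r ∈ adjoin M {ι x, ι y, r} := subset_adjoin _ _ (by simp)
    have hp : ∀ p : MvPolynomial (Fin 2) Ω, ι (MvPolynomial.aeval ![x, y] p) ∈
        adjoin M {ι x, ι y, r} := by
      intro p
      rw [← hval]
      have h1 : adjoin M {ι x, ι y} ≤ adjoin M {ι x, ι y, r} := by
        rw [adjoin_le_iff]
        rintro a (rfl | rfl)
        · exact mx
        · exact my
      exact h1 (aeval_mem (ι x) (ι y) _)
    rintro _ ⟨a, (rfl | rfl | rfl), rfl⟩
    · exact mx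
    · exact my
    · have h1 : ι a = κ * F / (r ^ t * G) := by
        rw [eq_div_iff (mul_ne_zero (pow_ne_zero _ hr0) hG0), hrt]
        rw [mul_comm (κ * F / (ι a * G)) G, ← mul_assoc, ← mul_div_assoc,
          mul_div_cancel_left₀ _ (mul_ne_zero hV0 hG0)]
      change ι a ∈ _
      rw [h1]
      exact div_mem (mul_mem ((adjoin M {ι x, ι y, r}).algebraMap_mem (⟨κ, hκM⟩ : M)) (hp f))
        (mul_mem (pow_mem mr t) (hp g))
  have h3 := uni_family ι σ {x, y, v} hU'
  refine uniruled_adjoin (AlgHom.id Ω N) _ _ ?_ h3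
  rintro a (rfl | rfl | rfl | rfl)
  · exact subset_adjoin _ _ (by simp)
  · exact subset_adjoin _ _ (by simp)
  · exact subset_adjoin _ _ (by simp)
  · exact subset_adjoin _ _ (by simp)

end Pool.Agent.Helper9.TR
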