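import Pool.Agent.Helper9.TR.Row
import Pool.Agent.Helper15.WC.RowM
import Pool.Agent.Helper35.V7.Row3

/-! Project V7. The rows of trinomials satisfy the criterion `Row3`. -/

set_option autoImplicit false

namespace Pool.Agent.Helper9.TR

open IntermediateField Pool.Agent.Helper75.QC Pool.Agent.Helper40.SD

/-- **The rows of trinomials** `w ^ n g ^ (s + t) = f ^ s h ^ t`: the surface is uniruled, or the
criterion holds. -/
theorem row3_trinomial {Ω R M : Type} [Field Ω] [IsAlgClosed Ω] [Field R] [Field M] [Algebra Ω R]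
    [Algebra Ω M] [Algebra R M] [IsScalarTower Ω R M] [FiniteDimensional R M] [IsGalois R M]
    (x y w : M) (hR : ∀ r : R, algebraMap R M r ∈ (adjoin Ω {x, y} : IntermediateField Ω M))
    (hM : adjoin Ω {x, y, w} = ⊤)
    (hrow : IsTrinomial Ω (Module.finrank (adjoin Ω {x, y} : IntermediateField Ω M) M) x y w) :
    Uniruled Ω M 2 ∨ Pool.Agent.Helper35.V7.Row3 Ω R M := by
  obtain ⟨n, hn⟩ : ∃ n, Module.finrank (adjoin Ω {x, y} : IntermediateField Ω M) M = n := ⟨_, rfl⟩
  rw [hn] at hrow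
  have hwn := trinomial_mem hrow
  obtain ⟨hn0, hcast, hw0⟩ := Pool.Agent.Helper15.WC.cyc_dataM x y w hR hM hn hwn
  rcases Nat.lt_or_ge 1 n with h1 | h1
  swap
  · left
    have hn1 : n = 1 := by omega
    refine Pool.Agent.Helper35.TD.uniruled_surface (n := 1) x y w hM ?_
    rw [hn1, pow_one] at hwn
    exact hwn
  rcases row_tri x y w hn0 (hw0 h1) hrow with h | ⟨α, β, h2, h3, h4, h5, h6⟩
  · left
    rw [hM] at h
    exact uniruled_of_hom (topEquiv (F := Ω) (E := M)).symm.toAlgHom h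
  · right
    refine Pool.Agent.Helper35.V7.Row3.of_rowDataM ⟨n, α, β, x, y, w, hn0, hcast, h2, h3, h4, h5,
      hR, hM, hn, hw0 h1, hwn, fun N _ _ g v s hv hvs => ?_⟩
    obtain ⟨hv0, hv1⟩ := Pool.Agent.Helper40.SD.sub_ne_of_not_mem _ v
      (Pool.Agent.Helper40.SD.not_mem_of_trans g x y v hv)
    exact h6 N g v s hv0 (sub_ne_zero.1 hv1).symm hvs

end Pool.Agent.Helper9.TR
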