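import Pool.Agent.Helper9.TR.Twist
import Pool.Agent.Helper35.TD.Target2

/-!
# The cyclic covers `w ^ n g ^ (s + t) = f ^ s h ^ t` of weighted planes
-/

set_option autoImplicit false

namespace Pool.Agent.Helper9.TR

open IntermediateField Pool.Agent.Helper75.QC Pool.Agent.Helper40.SD

/-- The equation `w ^ n = f(x, y) ^ s * h(x, y) ^ t / g(x, y) ^ (s + t)`, where for some weights
`a, b, c` of `x, y, r` the degree of `f - r ^ t * g + r ^ (s + t) * h` is at most `a + b + c`. -/
def IsTrinomial (Ω : Type) {M : Type} [Field Ω] [Field M] [Algebra Ω M] (n : ℕ) (x y w : M) :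
    Prop :=
  ∃ (a b c s t : ℕ) (f g h : MvPolynomial (Fin 2) Ω), 0 < a + b + c ∧ s.Coprime t ∧ 0 < s ∧
    0 < t ∧ Deg a b c 0 (a + b + c) f ∧ Deg a b c t (a + b + c) g ∧
    Deg a b c (s + t) (a + b + c) h ∧ MvPolynomial.aeval ![x, y] g ≠ 0 ∧
    w ^ n * MvPolynomial.aeval ![x, y] g ^ (s + t) =
      MvPolynomial.aeval ![x, y] f ^ s * MvPolynomial.aeval ![x, y] h ^ t

theorem trinomial_mem {Ω M : Type} [Field Ω] [Field M] [Algebra Ω M] {n : ℕ} {x y w : M}
    (h : IsTrinomial Ω n x y w) : w ^ n ∈ adjoin Ω {x, y} := by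
  obtain ⟨a, b, c, s, t, f, g, h, -, -, -, -, -, -, -, hg, heq⟩ := h
  have h1 : w ^ n = MvPolynomial.aeval ![x, y] f ^ s * MvPolynomial.aeval ![x, y] h ^ t /
      MvPolynomial.aeval ![x, y] g ^ (s + t) := by
    rw [eq_div_iff (pow_ne_zero _ hg), heq]
  rw [h1]
  exact div_mem (mul_mem (pow_mem (aeval_mem x y f) _) (pow_mem (aeval_mem x y h) _))
    (pow_mem (aeval_mem x y g) _)

/-- a root of a power -/
theorem uni_power {Ω M : Type} [Field Ω] [Field M] [Algebra Ω M] {n k : ℕ} (hnk : n.Coprime k)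
    (hn : 0 < n) (x y u C : M) (hC : C ∈ adjoin Ω {x, y}) (hC0 : C ≠ 0) (hu0 : u ≠ 0)
    (hu : u ^ n = C ^ k)
    (H : ∀ u' : M, u' ≠ 0 → u' ^ n = C → Uniruled Ω (adjoin Ω {x, y, u'} : IntermediateField Ω M) 2) :
    Uniruled Ω (adjoin Ω {x, y, u} : IntermediateField Ω M) 2 := by
  obtain ⟨r, hr0, hr1, hr2⟩ := exists_common hnk u C hu0 hC0 hu
  refine uniruled_adjoin (AlgHom.id Ω M) _ _ ?_ (H r hr0 hr2)
  have mr : r ∈ adjoin Ω {x, y, r} := subset_adjoin _ _ (by simp)
  rintro a (rfl | rfl | rfl)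
  · exact subset_adjoin _ _ (by simp)
  · exact subset_adjoin _ _ (by simp)
  · change a ∈ _
    rw [← hr1]
    exact pow_mem mr k

/-- **The list of trinomials.** -/
theorem row_tri {Ω M : Type} [Field Ω] [IsAlgClosed Ω] [Field M] [Algebra Ω M] (x y w : M) {n : ℕ}
    (hn : 0 < n) (hw0 : w ≠ 0) (hrow : IsTrinomial Ω n x y w) :
    Uniruled Ω (adjoin Ω {x, y, w} : IntermediateField Ω M) 2 ∨
      ∃ α β : ℕ, (α.gcd β).Coprime n ∧ ¬ n ∣ α ∧ ¬ n ∣ β ∧ ¬ n ∣ α + β ∧
        ∀ (N : Type) [Field N] [Algebra Ω N] (g : M →ₐ[Ω] N) (v s : N), v ≠ 0 → v ≠ 1 →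
          v ^ α * (1 - v) ^ β = s ^ n * g w ^ n →
          Uniruled Ω (adjoin Ω {g x, g y, v, s} : IntermediateField Ω N) 3 := by
  classical
  obtain ⟨a, b, c, s, t, f, g, h, hpos, hst, hs, ht, hf, hg, hh, hg0, heq⟩ := hrow
  set F := MvPolynomial.aeval ![x, y] f with hF
  set G := MvPolynomial.aeval ![x, y] g with hG
  set H := MvPolynomial.aeval ![x, y] h with hH
  have hFH : F ^ s * H ^ t ≠ 0 := by
    rw [← heq]
    exact mul_ne_zero (pow_ne_zero _ hw0) (pow_ne_zero _ hg0)
  have hF0 : F ≠ 0 := by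
    intro h0
    rw [h0, zero_pow hs.ne', zero_mul] at hFH
    exact hFH rfl
  have hH0 : H ≠ 0 := by
    intro h0
    rw [h0, zero_pow ht.ne', mul_zero] at hFH
    exact hFH rfl
  have mF : F ∈ adjoin Ω {x, y} := aeval_mem x y f
  have mG : G ∈ adjoin Ω {x, y} := aeval_mem x y g
  have mH : H ∈ adjoin Ω {x, y} := aeval_mem x y h
  -- change of the generator by an element of the plane
  have hgen : ∀ q : M, q ∈ adjoin Ω {x, y} → q ≠ 0 →
      Uniruled Ω (adjoin Ω {x, y, w * q} : IntermediateField Ω M) 2 →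
      Uniruled Ω (adjoin Ω {x, y, w} : IntermediateField Ω M) 2 := by
    intro q hq hq0 hU
    refine uniruled_adjoin (AlgHom.id Ω M) _ _ ?_ hU
    have mw : w * q ∈ adjoin Ω {x, y, w * q} := subset_adjoin _ _ (by simp)
    have hle : adjoin Ω {x, y} ≤ adjoin Ω {x, y, w * q} := adjoin.mono _ _ _ (by
      rintro a (rfl | rfl)
      · simp
      · simp)
    rintro a (rfl | rfl | rfl)
    · exact subset_adjoin _ _ (by simp)
    · exact subset_adjoin _ _ (by simp)
    · have h1 := div_mem mw (hle hq)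
      rw [mul_div_cancel_right₀ _ hq0] at h1
      exact h1
  by_cases h1 : n ∣ s
  · left
    obtain ⟨m, hm⟩ := h1
    have hm0 : 0 < m := by
      rcases Nat.eq_zero_or_pos m with h2 | h2
      · rw [h2, mul_zero] at hm
        omega
      · exact h2
    have hnt : n.Coprime t := Nat.Coprime.coprime_dvd_left ⟨m, hm⟩ hst
    refine hgen (G ^ m / F ^ m) (div_mem (pow_mem mG m) (pow_mem mF m))
      (div_ne_zero (pow_ne_zero _ hg0) (pow_ne_zero _ hF0)) ?_
    refine uni_power hnt hn x y _ (H / G) (div_mem mH mG) (div_ne_zero hH0 hg0)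
      (mul_ne_zero hw0 (div_ne_zero (pow_ne_zero _ hg0) (pow_ne_zero _ hF0))) ?_ ?_
    · rw [mul_pow, div_pow, ← pow_mul, ← pow_mul, mul_comm m n, ← hm, div_pow, mul_div_assoc',
        div_eq_div_iff (pow_ne_zero _ hF0) (pow_ne_zero _ hg0)]
      rw [pow_add] at heq
      linear_combination heq
    · intro u hu0 hu
      have h2 : Uniruled Ω (adjoin Ω {x, y, u⁻¹} : IntermediateField Ω M) 2 := by
        refine uni_binomial (a := a) (b := b) (c := m * c) (n := n) ?_ hn h g ?_ ?_ x y _ hg0 ?_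
        · rcases Nat.eq_zero_or_pos c with h3 | h3
          · rw [h3] at hpos ⊢
            omega
          · have := Nat.mul_pos hm0 h3
            omega
        · intro m' hm'
          have h3 := hh m' hm'
          have h4 : m * c * n = c * s := by rw [hm]; ring
          have h5 : c ≤ t * c := Nat.le_mul_of_pos_left _ ht
          rw [h4]
          rw [mul_add, mul_comm c t] at h3
          omega
        · intro m' hm'
          have h3 := hg m' hm'
          have h5 : c ≤ t * c := Nat.le_mul_of_pos_left _ ht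
          rw [mul_comm c t] at h3
          omega
        · rw [inv_pow, hu]
          change (H / G)⁻¹ * H = G
          rw [inv_div, div_mul_cancel₀ _ hH0]
      refine uniruled_adjoin (AlgHom.id Ω M) _ _ ?_ h2
      have mu : u⁻¹ ∈ adjoin Ω {x, y, u⁻¹} := subset_adjoin _ _ (by simp)
      rintro a (rfl | rfl | rfl)
      · exact subset_adjoin _ _ (by simp)
      · exact subset_adjoin _ _ (by simp)
      · have h3 := inv_mem mu
        rw [inv_inv] at h3
        exact h3
  by_cases h2 : n ∣ t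
  · left
    obtain ⟨m, hm⟩ := h2
    have hm0 : 0 < m := by
      rcases Nat.eq_zero_or_pos m with h2 | h2
      · rw [h2, mul_zero] at hm
        omega
      · exact h2
    have hns : n.Coprime s := Nat.Coprime.coprime_dvd_left ⟨m, hm⟩ hst.symm
    refine hgen (G ^ m / H ^ m) (div_mem (pow_mem mG m) (pow_mem mH m))
      (div_ne_zero (pow_ne_zero _ hg0) (pow_ne_zero _ hH0)) ?_
    refine uni_power hns hn x y _ (F / G) (div_mem mF mG) (div_ne_zero hF0 hg0)
      (mul_ne_zero hw0 (div_ne_zero (pow_ne_zero _ hg0) (pow_ne_zero _ hH0))) ?_ ?_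
    · rw [mul_pow, div_pow, ← pow_mul, ← pow_mul, mul_comm m n, ← hm, div_pow, mul_div_assoc',
        div_eq_div_iff (pow_ne_zero _ hH0) (pow_ne_zero _ hg0)]
      rw [pow_add] at heq
      linear_combination heq
    · intro u hu0 hu
      refine uni_binomial (a := a) (b := b) (c := m * c) (n := n) ?_ hn g f ?_ ?_ x y _ hF0 ?_
      · rcases Nat.eq_zero_or_pos c with h3 | h3
        · rw [h3] at hpos ⊢
          omega
        · have := Nat.mul_pos hm0 h3
          omega
      · intro m' hm'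
        have h3 := hg m' hm'
        have h4 : m * c * n = c * t := by rw [hm]; ring
        have h5 : c ≤ m * c := Nat.le_mul_of_pos_left _ hm0
        rw [h4]
        omega
      · intro m' hm'
        have h3 := hf m' hm'
        have h5 : c ≤ m * c := Nat.le_mul_of_pos_left _ hm0
        omega
      · rw [hu]
        change F / G * G = F
        rw [div_mul_cancel₀ _ hg0]
  by_cases h3 : n ∣ s + t
  · left
    obtain ⟨m, hm⟩ := h3
    have hm0 : 0 < m := by
      rcases Nat.eq_zero_or_pos m with h2 | h2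
      · rw [h2, mul_zero] at hm
        omega
      · exact h2
    have hns : n.Coprime s := by
      refine Nat.Coprime.coprime_dvd_left ⟨m, hm⟩ ?_
      rw [Nat.coprime_self_add_left]
      exact hst.symm
    refine hgen (G ^ m / H ^ m) (div_mem (pow_mem mG m) (pow_mem mH m))
      (div_ne_zero (pow_ne_zero _ hg0) (pow_ne_zero _ hH0)) ?_
    refine uni_power hns hn x y _ (F / H) (div_mem mF mH) (div_ne_zero hF0 hH0)
      (mul_ne_zero hw0 (div_ne_zero (pow_ne_zero _ hg0) (pow_ne_zero _ hH0))) ?_ ?_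
    · rw [mul_pow, div_pow, ← pow_mul, ← pow_mul, mul_comm m n, ← hm, div_pow, mul_div_assoc',
        div_eq_div_iff (pow_ne_zero _ hH0) (pow_ne_zero _ hH0), heq, pow_add]
      ring
    · intro u hu0 hu
      refine uni_binomial (a := a) (b := b) (c := m * c) (n := n) ?_ hn h f ?_ ?_ x y _ hF0 ?_
      · rcases Nat.eq_zero_or_pos c with h3 | h3
        · rw [h3] at hpos ⊢
          omega
        · have := Nat.mul_pos hm0 h3
          omega
      · intro m' hm'
        have h3 := hh m' hm'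
        have h4 : m * c * n = c * (s + t) := by rw [hm]; ring
        have h5 : c ≤ m * c := Nat.le_mul_of_pos_left _ hm0
        rw [h4]
        omega
      · intro m' hm'
        have h3 := hf m' hm'
        have h5 : c ≤ m * c := Nat.le_mul_of_pos_left _ hm0
        omega
      · rw [hu]
        change F / H * H = F
        rw [div_mul_cancel₀ _ hH0]
  right
  refine ⟨s, t, ?_, h1, h2, h3, fun N _ _ k v σ hv0 hv1 hvs => ?_⟩
  · rw [hst.gcd_eq_one]
    exact Nat.coprime_one_left n
  have e : ∀ p : MvPolynomial (Fin 2) Ω, MvPolynomial.aeval ![k x, k y] p =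
      k (MvPolynomial.aeval ![x, y] p) := fun p => (map_aeval75 k x y p).symm
  have hσ : σ ≠ 0 := by
    rintro rfl
    rw [zero_pow hn.ne', zero_mul] at hvs
    exact mul_ne_zero (pow_ne_zero _ hv0) (pow_ne_zero _ (sub_ne_zero.2 hv1.symm)) hvs
  refine uni_three (n := n) hpos hst hs ht f g h hf hg hh (k x) (k y) v σ ?_ ?_ ?_ hσ hv0
    (sub_ne_zero.2 hv1.symm) ?_
  · rw [e]
    exact (map_ne_zero k).2 hF0
  · rw [e]
    exact (map_ne_zero k).2 hg0
  · rw [e]
    exact (map_ne_zero k).2 hH0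
  · rw [e, e, e, hvs]
    have h4 := congrArg k heq
    rw [map_mul, map_mul, map_pow, map_pow, map_pow, map_pow] at h4
    rw [mul_assoc, h4]

end Pool.Agent.Helper9.TR
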