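import Pool.Agent.Helper9.TR.Surf

/-!
# A linear change of the variables of a cubic polynomial
-/

set_option autoImplicit false

namespace Pool.Agent.Helper9.TR

open IntermediateField Pool.Agent.Helper75.QC Pool.Agent.Helper40.SD

variable {Ω N : Type} [Field Ω] [Field N] [Algebra Ω N]

theorem coeff_three (G : MvPolynomial (Fin 3) Ω) (hG : G.IsHomogeneous 3) :
    (MvPolynomial.aeval ![Polynomial.X, 1, 0] G : Polynomial Ω).coeff 3 =
      MvPolynomial.coeff (Finsupp.single 0 3) G := by
  classical
  rw [MvPolynomial.aeval_def, MvPolynomial.eval₂_eq', Polynomial.finset_sum_coeff]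
  rw [Finset.sum_eq_single (Finsupp.single 0 3)]
  · rw [Fin.prod_univ_three]
    simp
  · intro m hm hne
    have h1 := hG (MvPolynomial.mem_support_iff.1 hm)
    rw [Finsupp.weight_apply, Finsupp.sum_fintype _ _ (by simp), Fin.sum_univ_three] at h1
    simp only [Pi.one_apply, smul_eq_mul, mul_one] at h1
    rw [Fin.prod_univ_three]
    simp only [Matrix.cons_val_zero, Matrix.cons_val_one, Matrix.cons_val_two, one_pow, mul_one,
      Matrix.tail_cons, Matrix.head_cons]
    by_cases h2 : m 2 = 0
    · rw [h2, pow_zero, mul_one, Polynomial.algebraMap_eq, Polynomial.coeff_C_mul,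
        Polynomial.coeff_X_pow]
      rw [if_neg, mul_zero]
      intro h3
      apply hne
      ext i
      fin_cases i
      · simpa using h3.symm
      · simp
        omega
      · simpa using h2
    · simp [h2]
  · intro h
    rw [MvPolynomial.notMem_support_iff.1 h]
    simp

/-- a linear change of the variables, after which the cube of the first variable does not appear -/
theorem exists_change [IsAlgClosed Ω] (F : MvPolynomial (Fin 3) Ω) (hF : F ≠ 0)
    (hd : ∀ m ∈ F.support, m 0 + m 1 + m 2 ≤ 3) (hc : MvPolynomial.coeff (Finsupp.single 0 3) F ≠ 0) :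
    ∃ (ρ : Ω) (F' : MvPolynomial (Fin 3) Ω), F' ≠ 0 ∧
      (∀ m ∈ F'.support, m 0 + m 1 + m 2 ≤ 3 ∧ m 0 ≤ 2) ∧
      ∀ (A : Type) [Field A] [Algebra Ω A] (x y z : A),
        MvPolynomial.aeval ![y, x - algebraMap Ω A ρ * y, z] F' =
          MvPolynomial.aeval ![x, y, z] F := by
  classical
  set G := MvPolynomial.homogeneousComponent 3 F with hG
  have hGh : G.IsHomogeneous 3 := MvPolynomial.homogeneousComponent_isHomogeneous 3 F
  have hGc : MvPolynomial.coeff (Finsupp.single 0 3) G =
      MvPolynomial.coeff (Finsupp.single 0 3) F := by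
    rw [hG, MvPolynomial.coeff_homogeneousComponent, if_pos]
    rw [Finsupp.degree_single]
  set q : Polynomial Ω := MvPolynomial.aeval ![Polynomial.X, 1, 0] G with hq
  have hq3 : q.coeff 3 ≠ 0 := by
    rw [hq, coeff_three G hGh, hGc]
    exact hc
  have hdeg : q.degree ≠ 0 := by
    intro h
    have h1 := Polynomial.eq_C_of_degree_eq_zero h
    rw [h1, Polynomial.coeff_C_succ] at hq3
    exact hq3 rfl
  obtain ⟨ρ, hρ⟩ := IsAlgClosed.exists_root q hdeg
  set φ : MvPolynomial (Fin 3) Ω →ₐ[Ω] MvPolynomial (Fin 3) Ω :=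
    MvPolynomial.aeval ![MvPolynomial.C ρ * MvPolynomial.X 0 + MvPolynomial.X 1,
      MvPolynomial.X 0, MvPolynomial.X 2] with hφ
  have hval : ∀ (A : Type) [Field A] [Algebra Ω A] (x y z : A) (F : MvPolynomial (Fin 3) Ω),
        MvPolynomial.aeval ![y, x - algebraMap Ω A ρ * y, z] (φ F) =
          MvPolynomial.aeval ![x, y, z] F := by
    intro A _ _ x y z F
    have h1 : (MvPolynomial.aeval (R := Ω) ![y, x - algebraMap Ω A ρ * y, z]).comp φ =
        MvPolynomial.aeval (R := Ω) ![x, y, z] := by
      apply MvPolynomial.algHom_ext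
      intro i
      fin_cases i
      · simp [hφ]
      · simp [hφ]
      · simp [hφ]
    exact DFunLike.congr_fun h1 F
  have hhom : ∀ (d : ℕ) (F : MvPolynomial (Fin 3) Ω), F.IsHomogeneous d → (φ F).IsHomogeneous d := by
    intro d F h
    have h1 := h.aeval (![MvPolynomial.C ρ * MvPolynomial.X 0 + MvPolynomial.X 1,
      MvPolynomial.X 0, MvPolynomial.X 2] : Fin 3 → MvPolynomial (Fin 3) Ω) (n := 1) (fun i => by
        fin_cases i
        · refine MvPolynomial.IsHomogeneous.add ?_ (MvPolynomial.isHomogeneous_X _ _)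
          have h2 := (MvPolynomial.isHomogeneous_C (Fin 3) ρ).mul
            (MvPolynomial.isHomogeneous_X Ω (0 : Fin 3))
          exact h2
        · exact MvPolynomial.isHomogeneous_X _ _
        · exact MvPolynomial.isHomogeneous_X _ _)
    rw [one_mul] at h1
    exact h1
  have hdec : F = ∑ i ∈ Finset.range 4, MvPolynomial.homogeneousComponent i F := by
    have h1 : F.totalDegree ≤ 3 := by
      rw [MvPolynomial.totalDegree]
      refine Finset.sup_le fun m hm => ?_
      rw [Finsupp.sum_fintype _ _ (by simp), Fin.sum_univ_three]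
      exact hd m hm
    conv_lhs => rw [← MvPolynomial.sum_homogeneousComponent F]
    refine Finset.sum_subset ?_ fun i _ hi => ?_
    · intro i hi
      rw [Finset.mem_range] at hi ⊢
      omega
    · rw [Finset.mem_range] at hi
      exact MvPolynomial.homogeneousComponent_eq_zero _ _ (by omega)
  have hdeg' : ∀ i, ∀ m ∈ (φ (MvPolynomial.homogeneousComponent i F)).support,
      m 0 + m 1 + m 2 = i := by
    intro i m hm
    have h1 := hhom i _ (MvPolynomial.homogeneousComponent_isHomogeneous i F)
      (MvPolynomial.mem_support_iff.1 hm)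
    rw [Finsupp.weight_apply, Finsupp.sum_fintype _ _ (by simp), Fin.sum_univ_three] at h1
    simpa using h1
  have hsupp : ∀ m ∈ (φ F).support, m 0 + m 1 + m 2 ≤ 3 := by
    intro m hm
    rw [hdec, map_sum] at hm
    obtain ⟨i, hi, hm⟩ := Finset.mem_biUnion.1 (MvPolynomial.support_sum hm)
    have h1 := hdeg' i m hm
    rw [Finset.mem_range] at hi
    omega
  refine ⟨ρ, φ F, ?_, fun m hm => ⟨hsupp m hm, ?_⟩, fun A _ _ x y z => hval A x y z F⟩
  · intro h
    apply hF
    have h1 : (MvPolynomial.aeval (R := Ω) (![MvPolynomial.X 1, MvPolynomial.X 0 -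
        MvPolynomial.C ρ * MvPolynomial.X 1, MvPolynomial.X 2] :
        Fin 3 → MvPolynomial (Fin 3) Ω)).comp φ = AlgHom.id Ω _ := by
      apply MvPolynomial.algHom_ext
      intro i
      fin_cases i
      · simp [hφ, MvPolynomial.algebraMap_eq]
      · simp [hφ]
      · simp [hφ]
    have h2 := DFunLike.congr_fun h1 F
    rw [AlgHom.comp_apply, h, map_zero] at h2
    exact h2.symm
  · by_contra h
    have h1 := hsupp m hm
    have h2 : m = Finsupp.single 0 3 := by
      ext i
      fin_cases i
      · simp
        omega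
      · simp
        omega
      · simp
        omega
    subst h2
    rw [MvPolynomial.mem_support_iff] at hm
    apply hm
    rw [hdec, map_sum, MvPolynomial.coeff_sum, Finset.sum_eq_single 3]
    · rw [← hG, coeff_pow_eval _ 3 (hhom 3 G hGh)]
      have h3 : MvPolynomial.aeval (![1, 0, 0] : Fin 3 → Ω) (φ G) =
          MvPolynomial.aeval (![ρ, 1, 0] : Fin 3 → Ω) G := by
        have := hval Ω ρ 1 0 G
        simpa using this
      rw [h3]
      have h4 : q.eval ρ = MvPolynomial.aeval (![ρ, 1, 0] : Fin 3 → Ω) G := by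
        have h5 : (Polynomial.aeval (R := Ω) ρ).comp
            (MvPolynomial.aeval (R := Ω) ![(Polynomial.X : Polynomial Ω), 1, 0]) =
            MvPolynomial.aeval (R := Ω) (![ρ, 1, 0] : Fin 3 → Ω) := by
          apply MvPolynomial.algHom_ext
          intro i
          fin_cases i <;> simp
        exact DFunLike.congr_fun h5 G
      rw [← h4]
      exact hρ
    · intro i _ hi
      by_contra h3
      have h4 := hdeg' i _ (MvPolynomial.mem_support_iff.2 h3)
      simp at h4
      exact hi h4.symm
    · intro h3
      simp at h3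

end Pool.Agent.Helper9.TR
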