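import Pool.Agent.Helper40.SD.Gpair
import Pool.Agent.Helper40.SD.Pencil
import Pool.Agent.Helper40.SD.Inp

/-!
# Surfaces which are quadratic in one variable
-/

set_option autoImplicit false

namespace Pool.Agent.Helper9.TR

open IntermediateField Pool.Agent.Helper75.QC Pool.Agent.Helper40.SD

variable {Ω N : Type} [Field Ω] [Field N] [Algebra Ω N]

/-- a field which is generated by elements of `M(θ)` -/
theorem uni_mem {E : Type} [Field E] [Algebra Ω E] (ι : N →ₐ[Ω] E) (G : Set N) (T : Finset E)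
    (θ : E) {i : ℕ} (hT : T.card < i)
    (h : ∀ a ∈ G, ι a ∈ adjoin Ω (Acl Ω (T : Set E) ∪ {θ})) :
    Uniruled Ω (adjoin Ω G : IntermediateField Ω N) i := by
  have hle : (adjoin Ω G : IntermediateField Ω N) ≤
      (adjoin Ω (Acl Ω (T : Set E) ∪ {θ})).comap ι := adjoin_le_iff.2 h
  exact ⟨E, inferInstance, inferInstance, ι.comp (adjoin Ω G).val, T, θ, hT, fun k => hle k.2⟩

/-- two dependent elements -/
theorem dep_two (x y : N) (h : ¬ AlgebraicIndependent Ω ![x, y]) :
    ∃ T : Finset N, T.card < 2 ∧ x ∈ Acl Ω (T : Set N) ∧ y ∈ Acl Ω (T : Set N) := by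
  classical
  have hs : ∀ (a : N) (T : Set N), a ∈ T → a ∈ Acl Ω T := fun a T ha =>
    isAlgebraic_algebraMap (⟨a, subset_adjoin Ω T ha⟩ : adjoin Ω T)
  by_cases h1 : IsAlgebraic Ω x
  · refine ⟨{y}, by simp, ?_, hs _ _ (by simp)⟩
    exact h1.tower_top (L := adjoin Ω (({y} : Finset N) : Set N))
  refine ⟨{x}, by simp, hs _ _ (by simp), ?_⟩
  by_contra h2
  apply h
  have h3 : AlgebraicIndependent Ω (fun _ : Fin 1 => x) := by
    rw [algebraicIndependent_unique_type_iff]
    exact h1
  have h4 : Transcendental (Algebra.adjoin Ω (Set.range fun _ : Fin 1 => x)) y := by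
    rw [Set.range_const]
    intro h5
    apply h2
    change IsAlgebraic (adjoin Ω (({x} : Finset N) : Set N)) y
    rw [Finset.coe_singleton]
    exact isAlgebraic_adjoin_iff.2 h5
  have h5 := (h3.option_iff_transcendental y).2 h4
  have h6 := (algebraicIndependent_equiv (finSuccEquiv 1)).2 h5
  have h7 := (algebraicIndependent_equiv (Equiv.swap (0 : Fin 2) 1)).2 h6
  convert h7 using 1
  funext i
  fin_cases i
  · simp only [Fin.zero_eta, Matrix.cons_val_zero, Function.comp_apply, Equiv.swap_apply_left]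
    rfl
  · simp only [Fin.mk_one, Matrix.cons_val_one, Function.comp_apply, Equiv.swap_apply_right]
    rfl

/-- a third element over two dependent ones -/
theorem uni_dep (x y z : N) (h : ¬ AlgebraicIndependent Ω ![x, y]) :
    Uniruled Ω (adjoin Ω {x, y, z} : IntermediateField Ω N) 2 := by
  obtain ⟨T, hT, hx, hy⟩ := dep_two x y h
  refine uni_mem (AlgHom.id Ω N) _ T z hT ?_
  rintro a (rfl | rfl | rfl)
  · exact subset_adjoin _ _ (Or.inl hx)
  · exact subset_adjoin _ _ (Or.inl hy)
  · exact subset_adjoin _ _ (Or.inr rfl)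

/-- the plane -/
theorem uni_plane (x y z : N) (h : z ∈ adjoin Ω {x, y}) :
    Uniruled Ω (adjoin Ω {x, y, z} : IntermediateField Ω N) 2 := by
  have hs : x ∈ Acl Ω (({x} : Finset N) : Set N) :=
    isAlgebraic_algebraMap (⟨x, subset_adjoin Ω _ (by simp)⟩ : adjoin Ω (({x} : Finset N) : Set N))
  have hle : adjoin Ω {x, y} ≤ adjoin Ω (Acl Ω (({x} : Finset N) : Set N) ∪ {y}) := by
    rw [adjoin_le_iff]
    rintro a (rfl | rfl)
    · exact subset_adjoin _ _ (Or.inl hs)
    · exact subset_adjoin _ _ (Or.inr rfl)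
  refine uni_mem (AlgHom.id Ω N) _ {x} y (by simp) ?_
  rintro a (rfl | rfl | rfl)
  · exact hle (subset_adjoin _ _ (by simp))
  · exact hle (subset_adjoin _ _ (by simp))
  · exact hle h

theorem aeval_mem (x y : N) (f : MvPolynomial (Fin 2) Ω) :
    MvPolynomial.aeval ![x, y] f ∈ adjoin Ω {x, y} := by
  induction f using MvPolynomial.induction_on with
  | C a =>
    rw [MvPolynomial.aeval_C]
    exact IntermediateField.algebraMap_mem _ _
  | add g h hg hh =>
    rw [map_add]
    exact add_mem hg hh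
  | mul_X g i hg =>
    rw [map_mul, MvPolynomial.aeval_X]
    refine mul_mem hg (subset_adjoin _ _ ?_)
    fin_cases i <;> simp

/-- characteristic two: square roots -/
theorem uni_insep [IsAlgClosed Ω] (h2 : (2 : Ω) = 0) (A C : MvPolynomial (Fin 2) Ω) (x y z : N)
    (hA : MvPolynomial.aeval ![x, y] A ≠ 0)
    (hz : MvPolynomial.aeval ![x, y] A * z ^ 2 + MvPolynomial.aeval ![x, y] C = 0) :
    Uniruled Ω (adjoin Ω {x, y, z} : IntermediateField Ω N) 2 := by
  classical
  have hch : CharP Ω 2 := CharTwo.of_one_ne_zero_of_two_eq_zero one_ne_zero h2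
  have : Fact (Nat.Prime 2) := ⟨Nat.prime_two⟩
  set E := AlgebraicClosure N
  let ι : N →ₐ[Ω] E := IsScalarTower.toAlgHom Ω N E
  have hchE : CharP E 2 := charP_of_injective_algebraMap (algebraMap Ω E).injective 2
  obtain ⟨X, hX⟩ := IsAlgClosed.exists_pow_nat_eq (ι x) (n := 2) (by norm_num)
  obtain ⟨Y, hY⟩ := IsAlgClosed.exists_pow_nat_eq (ι y) (n := 2) (by norm_num)
  have hperf : PerfectRing Ω 2 := inferInstance
  let σ : Ω →+* Ω := (frobeniusEquiv Ω 2).symm.toRingHom
  have hsq : ∀ G : MvPolynomial (Fin 2) Ω,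
      (MvPolynomial.aeval ![X, Y] (MvPolynomial.map σ G)) ^ 2 =
        ι (MvPolynomial.aeval ![x, y] G) := by
    intro G
    have h1 : ((frobenius E 2).comp (MvPolynomial.aeval (R := Ω) ![X, Y]).toRingHom).comp
        (MvPolynomial.map σ) = ι.toRingHom.comp (MvPolynomial.aeval (R := Ω) ![x, y]).toRingHom := by
      apply MvPolynomial.ringHom_ext
      · intro a
        have h3 : (frobeniusEquiv Ω 2) ((frobeniusEquiv Ω 2).symm a) = a :=
          RingEquiv.apply_symm_apply _ _
        rw [frobeniusEquiv_apply] at h3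
        simp only [RingHom.comp_apply, MvPolynomial.map_C, AlgHom.toRingHom_eq_coe,
          RingHom.coe_coe, MvPolynomial.aeval_C, frobenius_def, AlgHom.commutes]
        rw [← map_pow]
        exact congrArg (algebraMap Ω E) h3
      · intro i
        fin_cases i
        · simp [frobenius_def, hX]
        · simp [frobenius_def, hY]
    exact DFunLike.congr_fun h1 G
  have hA' : MvPolynomial.aeval ![X, Y] (MvPolynomial.map σ A) ≠ 0 := by
    intro h0
    apply hA
    have h3 := hsq A
    rw [h0, zero_pow two_ne_zero] at h3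
    exact (map_eq_zero ι).1 h3.symm
  have hz' : ι z = MvPolynomial.aeval ![X, Y] (MvPolynomial.map σ C) /
      MvPolynomial.aeval ![X, Y] (MvPolynomial.map σ A) := by
    rw [eq_div_iff hA']
    have h3 : (ι z * MvPolynomial.aeval ![X, Y] (MvPolynomial.map σ A)) ^ 2 =
        (MvPolynomial.aeval ![X, Y] (MvPolynomial.map σ C)) ^ 2 := by
      rw [mul_pow, hsq, hsq, ← map_pow, ← map_mul]
      congr 1
      have h4 : (2 : N) = 0 := by
        have h5 := congrArg (algebraMap Ω N) h2
        rwa [map_ofNat, map_zero] at h5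
      linear_combination hz - MvPolynomial.aeval ![x, y] C * h4
    exact frobenius_inj E 2 h3
  have hs : X ∈ Acl Ω (({X} : Finset E) : Set E) :=
    isAlgebraic_algebraMap (⟨X, subset_adjoin Ω _ (by simp)⟩ : adjoin Ω (({X} : Finset E) : Set E))
  have hle : adjoin Ω {X, Y} ≤ adjoin Ω (Acl Ω (({X} : Finset E) : Set E) ∪ {Y}) := by
    rw [adjoin_le_iff]
    rintro a (rfl | rfl)
    · exact subset_adjoin _ _ (Or.inl hs)
    · exact subset_adjoin _ _ (Or.inr rfl)
  refine uni_mem ι _ {X} Y (by simp) ?_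
  rintro a (rfl | rfl | rfl)
  · rw [← hX]
    exact hle (pow_mem (subset_adjoin _ _ (by simp)) 2)
  · rw [← hY]
    exact hle (pow_mem (subset_adjoin _ _ (by simp)) 2)
  · rw [hz']
    exact hle (div_mem (aeval_mem X Y _) (aeval_mem X Y _))

/-- **Surfaces `A z ^ 2 + B z + C = 0`.** -/
theorem uni_quadric [IsAlgClosed Ω] (A B C : MvPolynomial (Fin 2) Ω)
    (h0 : A ≠ 0 ∨ B ≠ 0 ∨ C ≠ 0) {a b : ℕ} (hpos : A ≠ 0 → 0 < a + b)
    (hB : ∀ m ∈ B.support, a * m 0 + b * m 1 ≤ a + b)
    (hAC : ∀ m ∈ (A * C).support, a * m 0 + b * m 1 ≤ 2 * (a + b)) (x y z : N)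
    (hz : MvPolynomial.aeval ![x, y] A * z ^ 2 + MvPolynomial.aeval ![x, y] B * z +
      MvPolynomial.aeval ![x, y] C = 0) :
    Uniruled Ω (adjoin Ω {x, y, z} : IntermediateField Ω N) 2 := by
  classical
  by_cases hxy : AlgebraicIndependent Ω ![x, y]
  swap
  · exact uni_dep x y z hxy
  have hne : ∀ G : MvPolynomial (Fin 2) Ω, MvPolynomial.aeval ![x, y] G = 0 → G = 0 := by
    intro G hG
    exact hxy (by rw [hG, map_zero])
  by_cases hA : A = 0
  · have hB0 : B ≠ 0 := by
      rintro rfl
      rw [hA, map_zero, zero_mul, zero_mul, zero_add, zero_add] at hz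
      rcases h0 with h | h | h
      · exact h hA
      · exact h rfl
      · exact h (hne C hz)
    refine uni_plane x y z ?_
    have hB1 : MvPolynomial.aeval ![x, y] B ≠ 0 := fun h => hB0 (hne B h)
    have h1 : z = -(MvPolynomial.aeval ![x, y] C) / MvPolynomial.aeval ![x, y] B := by
      rw [hA, map_zero, zero_mul, zero_add] at hz
      rw [eq_div_iff hB1]
      linear_combination hz
    rw [h1]
    exact div_mem (neg_mem (aeval_mem x y C)) (aeval_mem x y B)
  have hA1 : MvPolynomial.aeval ![x, y] A ≠ 0 := fun h => hA (hne A h)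
  by_cases h2 : (2 : Ω) ≠ 0 ∨ -B ≠ 0
  · have h3 : Uniruled Ω (adjoin Ω {x, y, MvPolynomial.aeval ![x, y] A * z} :
        IntermediateField Ω N) 2 := by
      refine uni_double_all (-(A * C)) (-B) h2 a b (hpos hA) ?_ ?_ x y _ ?_
      · intro m hm
        rw [MvPolynomial.support_neg] at hm
        exact hAC m hm
      · intro m hm
        rw [MvPolynomial.support_neg] at hm
        exact hB m hm
      · rw [map_neg, map_neg, map_mul]
        linear_combination (MvPolynomial.aeval ![x, y] A) * hz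
    refine uniruled_adjoin (AlgHom.id Ω N) _ _ ?_ h3
    have mx : x ∈ adjoin Ω {x, y, MvPolynomial.aeval ![x, y] A * z} :=
      subset_adjoin _ _ (by simp)
    have my : y ∈ adjoin Ω {x, y, MvPolynomial.aeval ![x, y] A * z} :=
      subset_adjoin _ _ (by simp)
    have mz : MvPolynomial.aeval ![x, y] A * z ∈
        adjoin Ω {x, y, MvPolynomial.aeval ![x, y] A * z} := subset_adjoin _ _ (by simp)
    have mA : MvPolynomial.aeval ![x, y] A ∈ adjoin Ω {x, y, MvPolynomial.aeval ![x, y] A * z} := by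
      have h4 : adjoin Ω {x, y} ≤ adjoin Ω {x, y, MvPolynomial.aeval ![x, y] A * z} := by
        rw [adjoin_le_iff]
        rintro a (rfl | rfl)
        · exact mx
        · exact my
      exact h4 (aeval_mem x y A)
    rintro a (rfl | rfl | rfl)
    · exact mx
    · exact my
    · have h5 := div_mem mz mA
      rw [mul_div_cancel_left₀ _ hA1] at h5
      exact h5
  · push Not at h2
    obtain ⟨h2, h3⟩ := h2
    rw [neg_eq_zero] at h3
    subst h3
    rw [map_zero, zero_mul, add_zero] at hz
    exact uni_insep h2 A C x y z hA1 hz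

end Pool.Agent.Helper9.TR
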