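import Pool.Agent.Helper9.TR.Quad

/-!
# Surfaces of weighted degree at most the sum of the weights are uniruled
-/

set_option autoImplicit false

namespace Pool.Agent.Helper9.TR

open IntermediateField Pool.Agent.Helper75.QC Pool.Agent.Helper40.SD

variable {Ω N : Type} [Field Ω] [Field N] [Algebra Ω N]

/-- The degree of `F` with the weights `w` is at most `D`. -/
def WLE {ι : Type} [Fintype ι] (w : ι → ℕ) (D : ℕ) (F : MvPolynomial ι Ω) : Prop :=
  ∀ m ∈ F.support, ∑ i, w i * m i ≤ D

/-- the values of a polynomial, as a polynomial in the variable `0` -/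
theorem aeval_cons (F : MvPolynomial (Fin 3) Ω) (z x y : N) :
    MvPolynomial.aeval ![z, x, y] F =
      ((MvPolynomial.finSuccEquiv Ω 2 F).map
        (MvPolynomial.aeval (R := Ω) ![x, y]).toRingHom).eval z := by
  have h : MvPolynomial.aeval (R := Ω) ![z, x, y] =
      ((Polynomial.aeval (R := N) z).restrictScalars Ω).comp
        ((Polynomial.mapAlgHom (MvPolynomial.aeval (R := Ω) ![x, y])).comp
          (MvPolynomial.finSuccEquiv Ω 2).toAlgHom) := by
    apply MvPolynomial.algHom_ext
    intro i
    refine Fin.cases ?_ (fun j => ?_) i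
    · simp [MvPolynomial.finSuccEquiv_X_zero]
    · have h1 : (MvPolynomial.finSuccEquiv Ω 2) (MvPolynomial.X j.succ) =
          Polynomial.C (MvPolynomial.X j) := MvPolynomial.finSuccEquiv_X_succ
      have h2 := congrArg (fun p => Polynomial.eval z (Polynomial.map
        (MvPolynomial.aeval (R := Ω) ![x, y]).toRingHom p)) h1
      simp only [MvPolynomial.aeval_X]
      refine Eq.trans ?_ h2.symm
      simp
  have h1 := DFunLike.congr_fun h F
  rw [h1]
  simp

/-- polynomials which are quadratic in the variable `0` -/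
theorem uni_deg_two [IsAlgClosed Ω] (w : Fin 3 → ℕ) (F : MvPolynomial (Fin 3) Ω) (hF : F ≠ 0)
    (hd : WLE w (∑ i, w i) F) (h2 : ∀ m ∈ F.support, m 0 ≤ 2)
    (h3 : ∀ m ∈ F.support, m 0 = 2 → 0 < w 1 + w 2) (z x y : N)
    (h0 : MvPolynomial.aeval ![z, x, y] F = 0) :
    Uniruled Ω (adjoin Ω {x, y, z} : IntermediateField Ω N) 2 := by
  classical
  set P := MvPolynomial.finSuccEquiv Ω 2 F with hP
  have hsup : ∀ i, ∀ m ∈ (P.coeff i).support, w 0 * i + (w 1 * m 0 + w 2 * m 1) ≤
      w 0 + w 1 + w 2 := by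
    intro i m hm
    have h4 := hd _ (MvPolynomial.mem_support_coeff_finSuccEquiv.1 hm)
    rw [Fin.sum_univ_three, Fin.sum_univ_three] at h4
    have e1 : (m.cons i) 1 = m 0 := Finsupp.cons_succ (0 : Fin 2) i m
    have e2 : (m.cons i) 2 = m 1 := Finsupp.cons_succ (1 : Fin 2) i m
    rw [Finsupp.cons_zero, e1, e2] at h4
    omega
  have hdeg : P.natDegree ≤ 2 := by
    rw [Polynomial.natDegree_le_iff_coeff_eq_zero]
    intro i hi
    by_contra h
    obtain ⟨m, hm⟩ := MvPolynomial.support_nonempty.2 h
    have h4 := h2 _ (MvPolynomial.mem_support_coeff_finSuccEquiv.1 hm)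
    rw [Finsupp.cons_zero] at h4
    omega
  have hP0 : P ≠ 0 := by
    intro h
    apply hF
    have h4 := (MvPolynomial.finSuccEquiv Ω 2).injective
    exact h4 (h.trans (map_zero _).symm)
  have hPe : P = Polynomial.C (P.coeff 2) * Polynomial.X ^ 2 + Polynomial.C (P.coeff 1) *
      Polynomial.X + Polynomial.C (P.coeff 0) := by
    conv_lhs => rw [P.as_sum_range_C_mul_X_pow' (n := 3) (by omega)]
    simp only [Finset.sum_range_succ, Finset.sum_range_zero, pow_zero, pow_one, mul_one]
    ring
  refine uni_quadric (P.coeff 2) (P.coeff 1) (P.coeff 0) (a := w 1) (b := w 2) ?_ ?_ ?_ ?_ x y z ?_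
  · by_contra h
    push Not at h
    obtain ⟨e2, e1, e0⟩ := h
    apply hP0
    rw [hPe, e2, e1, e0]
    simp
  · intro h
    obtain ⟨m, hm⟩ := MvPolynomial.support_nonempty.2 h
    exact h3 _ (MvPolynomial.mem_support_coeff_finSuccEquiv.1 hm) (Finsupp.cons_zero _ _)
  · intro m hm
    have h4 := hsup 1 m hm
    omega
  · intro m hm
    obtain ⟨m1, h4, m2, h5, rfl⟩ := Finset.mem_add.1 (MvPolynomial.support_mul _ _ hm)
    have h6 := hsup 2 m1 h4
    have h7 := hsup 0 m2 h5
    simp only [Finsupp.add_apply]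
    ring_nf at h6 h7 ⊢
    omega
  · rw [aeval_cons, ← hP, hPe] at h0
    simp only [Polynomial.map_add, Polynomial.map_mul, Polynomial.map_C, Polynomial.map_pow,
      Polynomial.map_X, Polynomial.eval_add, Polynomial.eval_mul, Polynomial.eval_C,
      Polynomial.eval_pow, Polynomial.eval_X, AlgHom.toRingHom_eq_coe, RingHom.coe_coe] at h0
    exact h0

/-- a permutation of the variables -/
theorem WLE.rename {ι κ : Type} [Fintype ι] [Fintype κ] (e : ι ≃ κ) (w : ι → ℕ) (D : ℕ)
    (F : MvPolynomial ι Ω) (h : WLE w D F) : WLE (w ∘ e.symm) D (MvPolynomial.rename e F) := by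
  classical
  intro m hm
  rw [MvPolynomial.support_rename_of_injective e.injective, Finset.mem_image] at hm
  obtain ⟨m', hm', rfl⟩ := hm
  refine le_trans (le_of_eq ?_) (h m' hm')
  rw [← Equiv.sum_comp e]
  refine Finset.sum_congr rfl fun i _ => ?_
  rw [Finsupp.mapDomain_apply e.injective, Function.comp_apply, Equiv.symm_apply_apply]

theorem coeff_pow_eval (G : MvPolynomial (Fin 3) Ω) (d : ℕ) (hG : G.IsHomogeneous d) :
    MvPolynomial.coeff (Finsupp.single 0 d) G = MvPolynomial.aeval (![1, 0, 0] : Fin 3 → Ω) G := by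
  classical
  rw [MvPolynomial.aeval_def, MvPolynomial.eval₂_eq']
  rw [Finset.sum_eq_single (Finsupp.single 0 d)]
  · rw [Fin.prod_univ_three]
    simp
  · intro m hm hne
    have h1 := hG (MvPolynomial.mem_support_iff.1 hm)
    by_cases h2 : m 1 = 0 ∧ m 2 = 0
    · exfalso
      apply hne
      rw [Finsupp.weight_apply, Finsupp.sum_fintype _ _ (by simp), Fin.sum_univ_three, h2.1,
        h2.2] at h1
      ext i
      fin_cases i
      · simpa using h1
      · simpa using h2.1
      · simpa using h2.2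
    · rw [Fin.prod_univ_three]
      simp only [Matrix.cons_val_zero, Matrix.cons_val_one, Matrix.cons_val_two, one_pow]
      rw [not_and_or] at h2
      rcases h2 with h2 | h2
      · simp [h2]
      · simp [h2]
  · intro h
    rw [MvPolynomial.notMem_support_iff.1 h]
    simp

end Pool.Agent.Helper9.TR
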