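import Pool.Agent.Helper55.FR.Main
import Pool.Agent.Helper84.NI.E2
import Pool.Agent.Helper9.S3X.W4

/-!
# Project TR (MP_0f6f3f_an): transfer of small masses through compact sets

`Sml μ a E V B`: the masses of the vectors `zx μ a E v`, `v ∈ V`, on the sets `B n` tend to zero uniformly. `CrsL B`, `CrsR B`: for every `γ` and `n` the set `γ B m` (`B m γ`) is contained in `B n` for large `m`. If `K` is compact and `B` is coarse then
`Sml V B` implies `Sml (K * V * K) B`.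
-/

set_option autoImplicit false
set_option linter.unusedSectionVars false

open MeasureTheory Filter Topology
open scoped Pointwise

namespace Pool.Agent.Helper9.TR

open Pool.Agent.Helper84.NI Pool.Agent.Helper84.GVN Pool.Agent.Helper90.RK
open Pool.Agent.Helper84.GN hiding toReg
open Pool.Agent.Helper96.RK Pool.Agent.Helper66.FR Pool.Agent.Helper84.FR Pool.Agent.Helper96.FR Pool.Agent.Helper55.FR

section Conv

variable {G : Type} [Group G]

/-- Left translates for large indices. -/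
def CrsL (B : ℕ → Set G) : Prop := ∀ (γ : G) (n : ℕ), ∃ m, ∀ x ∈ B m, γ * x ∈ B n

/-- Right translates for large indices. -/
def CrsR (B : ℕ → Set G) : Prop := ∀ (γ : G) (n : ℕ), ∃ m, ∀ x ∈ B m, x * γ ∈ B n

theorem CrsL.finset {B : ℕ → Set G} (h : CrsL B) (hB : Antitone B) (T : Finset G) (n : ℕ) :
    ∃ m, ∀ γ ∈ T, ∀ x ∈ B m, γ * x ∈ B n := by
  classical
  choose f hf using fun γ => h γ n
  refine ⟨T.sup f, fun γ hγ x hx => hf γ x (hB (Finset.le_sup hγ) hx)⟩

theorem norm_ind_lam {A B : Set G} {γ : G} (h : ∀ x ∈ A, γ⁻¹ * x ∈ B) (f : L2 G) :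
    ‖ind ℂ A (lamU γ f)‖ ≤ ‖ind ℂ B f‖ := by
  classical
  have h1 : ind ℂ A (lamU γ f) = ind ℂ A (lamU γ (ind ℂ B f)) := by
    apply lv_ext
    intro x
    rw [ind_apply, ind_apply]
    by_cases hx : x ∈ A
    · rw [if_pos hx, if_pos hx, lamU_apply, lamU_apply, ind_apply, if_pos (h x hx)]
    · rw [if_neg hx, if_neg hx]
  rw [h1]
  exact (norm_ind2 _ _).trans (LinearIsometryEquiv.norm_map _ _).le

/-- The mass of a product. -/
theorem mass_mul {A B : Set G} {T : Finset G} (h : ∀ γ ∈ T, ∀ x ∈ A, γ⁻¹ * x ∈ B) {v w : L2 G ≃ₗᵢ[ℂ] L2 G}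
    (hv : CommR v) (hw : CommR w) :
    ‖ind ℂ A (cf (v * w))‖ ≤ ‖cf v - ind ℂ (T : Set G) (cf v)‖ + T.card * ‖ind ℂ B (cf w)‖ := by
  classical
  have h0 : cf (v * w) = jjU w⁻¹ (cf v) := by
    change v (w (dl 1)) = jjU w⁻¹ (v (dl 1))
    rw [jj_comm hv (commR_inv hw), jj_dl hw, lamU_one]
    rfl
  have h1 : ind ℂ (T : Set G) (cf v) = ∑ γ ∈ T, cf v γ • (dl γ : L2 G) := by
    apply lv_ext
    intro x
    rw [ind_apply, lp.coeFn_sum, Finset.sum_apply]
    have e : ∀ γ ∈ T, (cf v γ • (dl γ : L2 G)) x = if x = γ then cf v γ else 0 := by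
      intro γ _
      change cf v γ * (dl γ : L2 G) x = _
      rw [dl_apply]
      split_ifs <;> simp
    rw [Finset.sum_congr rfl e, Finset.sum_ite_eq]
    simp
  have h2 : cf (v * w) = jjU w⁻¹ (cf v - ind ℂ (T : Set G) (cf v)) + ∑ γ ∈ T, cf v γ • lamU γ (cf w) := by
    rw [h0, map_sub]
    have h3 : jjU w⁻¹ (ind ℂ (T : Set G) (cf v)) = ∑ γ ∈ T, cf v γ • lamU γ (cf w) := by
      rw [h1, map_sum]
      refine Finset.sum_congr rfl fun γ _ => ?_
      rw [map_smul, jj_dl hw]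
    rw [h3, sub_add_cancel]
  rw [h2, map_add]
  refine (norm_add_le _ _).trans (add_le_add ?_ ?_)
  · exact (norm_ind2 _ _).trans (LinearIsometryEquiv.norm_map _ _).le
  · rw [map_sum]
    refine (norm_sum_le _ _).trans ?_
    have h4 : ∀ γ ∈ T, ‖ind ℂ A (cf v γ • lamU γ (cf w))‖ ≤ ‖ind ℂ B (cf w)‖ := by
      intro γ hγ
      rw [map_smul, norm_smul]
      have h5 : ‖cf v γ‖ ≤ 1 := by
        rw [← norm_cf v]
        exact lp.norm_apply_le_norm two_ne_zero _ _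
      refine (mul_le_mul h5 (norm_ind_lam (h γ hγ) (cf w)) (norm_nonneg _) zero_le_one).trans ?_
      rw [one_mul]
    refine (Finset.sum_le_sum h4).trans ?_
    rw [Finset.sum_const, nsmul_eq_mul]

theorem exists_tail (f : L2 G) {ε : ℝ} (hε : 0 < ε) : ∃ T : Finset G, ‖f - ind ℂ (T : Set G) f‖ ≤ ε := by
  classical
  have h1 := lp.hasSum_single (E := fun _ : G => ℂ) (p := 2) (by norm_num) f
  obtain ⟨T, hT⟩ := (Metric.tendsto_atTop.1 h1) ε hε
  refine ⟨T, ?_⟩
  have h2 := hT T le_rfl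
  have h3 : ind ℂ (T : Set G) f = ∑ γ ∈ T, lp.single (E := fun _ : G => ℂ) 2 γ (f γ) := by
    apply lv_ext
    intro x
    rw [ind_apply, lp.coeFn_sum, Finset.sum_apply]
    have e : ∀ γ ∈ T, (lp.single (E := fun _ : G => ℂ) 2 γ (f γ) : L2 G) x = if x = γ then f γ else 0 := by
      intro γ _
      rw [lp.single_apply, Pi.single_apply]
    rw [Finset.sum_congr rfl e, Finset.sum_ite_eq]
    simp
  rw [h3, norm_sub_rev, ← dist_eq_norm]
  exact h2.le

end Conv

variable {G1 X G Λ : Type} [Group G1] [MeasurableSpace X] [MulAction G1 X] [MeasurableConstSMul G1 X]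
  [Group G] [Group Λ] [Countable Λ] {μ : Measure X} [SMulInvariantMeasure G1 X μ] [IsProbabilityMeasure μ]
  {a : Cocy G1 X Λ} {E : Emb Λ G}

/-- Uniformly small masses. -/
def Sml (μ : Measure X) [SMulInvariantMeasure G1 X μ] [IsProbabilityMeasure μ] (a : Cocy G1 X Λ) (E : Emb Λ G)
    (V : Set G1) (B : ℕ → Set G) : Prop :=
  ∀ ε : ℝ, 0 < ε → ∃ n, ∀ v ∈ V, ‖cl μ (ind ℂ (B n)) (zx μ a E v)‖ ≤ ε

/-- Compact sets: up to small measure the cocycle has finitely many values. -/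
theorem exists_finset [TopologicalSpace G1] [IsTopologicalGroup G1]
    (h3 : Tendsto (fun g : G1 => μ {x | a.a g x ≠ 1}) (𝓝 1) (𝓝 0)) {K : Set G1} (hK : IsCompact K)
    {ε : ENNReal} (hε : 0 < ε) : ∃ Q : Finset Λ, ∀ k ∈ K, μ {x | a.a k x ∉ Q} ≤ ε := by
  classical
  refine hK.induction_on (p := fun s => ∃ Q : Finset Λ, ∀ k ∈ s, μ {x | a.a k x ∉ Q} ≤ ε) ⟨∅, fun k hk => hk.elim⟩
    (fun s t hst ⟨Q, hQ⟩ => ⟨Q, fun k hk => hQ k (hst hk)⟩) (fun s t ⟨Q, hQ⟩ ⟨Q', hQ'⟩ => ⟨Q ∪ Q', ?_⟩) (fun k0 _ => ?_)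
  · rintro k (hk | hk)
    · have h : {x | a.a k x ∉ Q ∪ Q'} ⊆ {x | a.a k x ∉ Q} := fun x hx h => hx (Finset.mem_union_left _ h)
      exact (measure_mono h).trans (hQ k hk)
    · have h : {x | a.a k x ∉ Q ∪ Q'} ⊆ {x | a.a k x ∉ Q'} := fun x hx h => hx (Finset.mem_union_right _ h)
      exact (measure_mono h).trans (hQ' k hk)
  · have hε2 : 0 < ε / 2 := ENNReal.half_pos hε.ne'
    -- finitely many values at `k0`
    obtain ⟨Q, hQ⟩ : ∃ Q : Finset Λ, μ {x | a.a k0 x ∉ Q} ≤ ε / 2 := by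
      have hanti : Antitone fun Q : Finset Λ => {x | a.a k0 x ∉ Q} := fun Q Q' h x hx h' => hx (h h')
      have hmeas : ∀ Q : Finset Λ, NullMeasurableSet {x | a.a k0 x ∉ Q} μ := by
        intro Q
        have : MeasurableSet {x | a.a k0 x ∈ Q} := by
          have e : {x | a.a k0 x ∈ Q} = ⋃ l ∈ Q, a.a k0 ⁻¹' {l} := by
            ext x
            simp
          rw [e]
          exact Finset.measurableSet_biUnion _ fun l _ => a.meas k0 l
        exact this.compl.nullMeasurableSet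
      have h1 := tendsto_measure_iInter_atTop (μ := μ) hmeas hanti ⟨∅, measure_ne_top _ _⟩
      have h2 : (⋂ Q : Finset Λ, {x | a.a k0 x ∉ Q}) = ∅ := by
        ext x
        simp only [Set.mem_iInter, Set.mem_ofPred_eq, Set.mem_empty_iff_false, iff_false, not_forall, not_not]
        exact ⟨{a.a k0 x}, Finset.mem_singleton_self _⟩
      rw [h2, measure_empty] at h1
      have h4 := (h1.eventually (gt_mem_nhds hε2)).exists
      obtain ⟨Q, hQ⟩ := h4
      exact ⟨Q, hQ.le⟩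
    have h5 : ∀ᶠ h in 𝓝 (1 : G1), μ {x | a.a h x ≠ 1} < ε / 2 := h3.eventually (gt_mem_nhds hε2)
    have h6 : Tendsto (fun g : G1 => g * k0⁻¹) (𝓝 k0) (𝓝 1) := by
      have : Tendsto (fun g : G1 => g * k0⁻¹) (𝓝 k0) (𝓝 (k0 * k0⁻¹)) := tendsto_id.mul_const k0⁻¹
      rwa [mul_inv_cancel] at this
    refine ⟨{g | μ {x | a.a (g * k0⁻¹) x ≠ 1} < ε / 2}, mem_nhdsWithin_of_mem_nhds (h6.eventually h5), Q, fun g hg => ?_⟩
    have h7 : {x | a.a g x ∉ Q} ⊆ ((fun x => k0 • x) ⁻¹' {x | a.a (g * k0⁻¹) x ≠ 1}) ∪ {x | a.a k0 x ∉ Q} := by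
      intro x hx
      by_cases h : a.a (g * k0⁻¹) (k0 • x) = 1
      · right
        intro hQx
        apply hx
        have h8 := a.mul (g * k0⁻¹) k0 x
        rw [inv_mul_cancel_right, h, one_mul] at h8
        rw [h8]
        exact hQx
      · left
        exact h
    have h8 : μ ((fun x => k0 • x) ⁻¹' {x | a.a (g * k0⁻¹) x ≠ 1}) = μ {x | a.a (g * k0⁻¹) x ≠ 1} :=
      measure_preimage_smul μ k0 _
    calc μ {x | a.a g x ∉ Q} ≤ _ := measure_mono h7
      _ ≤ _ := measure_union_le _ _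
      _ ≤ ε / 2 + ε / 2 := by
        rw [h8]
        exact add_le_add hg.le hQ
      _ = ε := ENNReal.add_halves ε

/-- Transfer through a compact set on the left. -/
theorem Sml.left [TopologicalSpace G1] [IsTopologicalGroup G1]
    (h3 : Tendsto (fun g : G1 => μ {x | a.a g x ≠ 1}) (𝓝 1) (𝓝 0)) {K : Set G1} (hK : IsCompact K) {V : Set G1}
    {B : ℕ → Set G} (hB : Antitone B) (hc : CrsL B) (h : Sml μ a E V B) : Sml μ a E (K * V) B := by
  classical
  intro ε hε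
  obtain ⟨e, he, he2⟩ : ∃ e : ℝ, 0 < e ∧ 9 * e ^ 2 ≤ ε ^ 2 := ⟨ε / 3, by positivity, by nlinarith⟩
  obtain ⟨Q, hQ⟩ := exists_finset h3 hK (ε := ENNReal.ofReal (e ^ 2)) (ENNReal.ofReal_pos.2 (by positivity))
  choose T hT using fun q : Λ => exists_tail (cf (E.U q)) he
  obtain ⟨C, hC⟩ : ∃ C : ℕ, ∀ q ∈ Q, (T q).card ≤ C :=
    ⟨Q.sup fun q => (T q).card, fun q hq => Finset.le_sup (f := fun q => (T q).card) hq⟩
  obtain ⟨n, hn⟩ := h (e / (C + 1)) (by positivity)
  obtain ⟨m, hm⟩ := hc.finset hB ((Q.biUnion T).image fun γ => γ⁻¹) n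
  refine ⟨m, ?_⟩
  rintro _ ⟨k, hk, v, hv, rfl⟩
  change ‖cl μ (ind ℂ (B m)) (zx μ a E (k * v))‖ ≤ ε
  set φ : XL μ (L2 G) := cl μ (ind ℂ (B n)) (zx μ a E v) with hφ
  set bad : Set X := (fun x => k⁻¹ • x) ⁻¹' {x | a.a k x ∉ Q} with hbad
  have hbm : MeasurableSet bad := by
    refine (measurable_const_smul k⁻¹) ?_
    have : MeasurableSet {x | a.a k x ∈ Q} := by
      have e : {x | a.a k x ∈ Q} = ⋃ l ∈ Q, a.a k ⁻¹' {l} := by
        ext x
        simp
      rw [e]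
      exact Finset.measurableSet_biUnion _ fun l _ => a.meas k l
    exact this.compl
  have hbμ : μ.real bad ≤ e ^ 2 := by
    have h1 : μ bad = μ {x | a.a k x ∉ Q} := measure_preimage_smul μ k⁻¹ _
    unfold Measure.real
    rw [h1]
    exact ENNReal.toReal_le_of_le_ofReal (by positivity) (hQ k hk)
  have hpt : ∀ᵐ x ∂μ, ‖cl μ (ind ℂ (B m)) (zx μ a E (k * v)) x‖ ≤
      e + C * ‖kp μ (L2 G) k φ x‖ + bad.indicator (fun _ => (1 : ℝ)) x := by
    filter_upwards [cl_apply (ind ℂ (B m)) (zx μ a E (k * v)), zv_apply (μ := μ) (E := E) (mea_a (a := a) (k * v) (k * v)⁻¹),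
      kp_apply (μ := μ) k φ, (measurePreserving_smul k⁻¹ μ).quasiMeasurePreserving.ae (cl_apply (ind ℂ (B n)) (zx μ a E v)),
      (measurePreserving_smul k⁻¹ μ).quasiMeasurePreserving.ae
        (zv_apply (μ := μ) (E := E) (mea_a (a := a) v v⁻¹))] with x h1 h2 h4 h5 h6
    have e1 : a.a (k * v) ((k * v)⁻¹ • x) = a.a k (k⁻¹ • x) * a.a v (v⁻¹ • k⁻¹ • x) := by
      rw [a.mul, mul_inv_rev, mul_smul, smul_inv_smul]
    have e2 : zx μ a E (k * v) x = cf (E.U (a.a k (k⁻¹ • x)) * E.U (a.a v (v⁻¹ • k⁻¹ • x))) := by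
      rw [zx_eq, h2, e1, map_mul]
    have e3 : zx μ a E v (k⁻¹ • x) = cf (E.U (a.a v (v⁻¹ • k⁻¹ • x))) := h6
    rw [h1, e2, h4, hφ, h5, e3]
    by_cases hx : x ∈ bad
    · rw [Set.indicator_of_mem hx]
      have h7 : ‖ind ℂ (B m) (cf (E.U (a.a k (k⁻¹ • x)) * E.U (a.a v (v⁻¹ • k⁻¹ • x))))‖ ≤ 1 :=
        (norm_ind2 _ _).trans (norm_cf _).le
      have h8 : (0 : ℝ) ≤ C * ‖ind ℂ (B n) (cf (E.U (a.a v (v⁻¹ • k⁻¹ • x))))‖ := by positivity
      linarith
    · rw [Set.indicator_of_notMem hx, add_zero]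
      have hq : a.a k (k⁻¹ • x) ∈ Q := by
        by_contra hcon
        exact hx hcon
      refine (mass_mul (T := T (a.a k (k⁻¹ • x))) (B := B n) (fun γ hγ y hy => ?_) (E.comm _) (E.comm _)).trans ?_
      · refine hm γ⁻¹ ?_ y hy
        exact Finset.mem_image_of_mem _ (Finset.mem_biUnion.2 ⟨_, hq, hγ⟩)
      · refine add_le_add (hT _) (mul_le_mul_of_nonneg_right ?_ (norm_nonneg _))
        exact_mod_cast hC _ hq
  have hsq : ‖cl μ (ind ℂ (B m)) (zx μ a E (k * v))‖ ^ 2 ≤ ε ^ 2 := by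
    rw [xl_norm_sq]
    have hint : Integrable (fun x => 3 * (e ^ 2 + C ^ 2 * ‖kp μ (L2 G) k φ x‖ ^ 2 +
        bad.indicator (fun _ => (1 : ℝ)) x)) μ := by
      refine Integrable.const_mul ?_ 3
      refine ((integrable_const _).add ((xl_int _).const_mul _)).add ?_
      exact (integrable_const _).indicator hbm
    refine (integral_mono_ae (xl_int _) hint ?_).trans ?_
    · filter_upwards [hpt] with x hx
      have h1 : (0 : ℝ) ≤ bad.indicator (fun _ => (1 : ℝ)) x := Set.indicator_nonneg (fun _ _ => zero_le_one) x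
      have h2 : bad.indicator (fun _ => (1 : ℝ)) x ^ 2 = bad.indicator (fun _ => (1 : ℝ)) x := by
        by_cases hb : x ∈ bad
        · rw [Set.indicator_of_mem hb]
          norm_num
        · rw [Set.indicator_of_notMem hb]
          norm_num
      have h4 : ‖cl μ (ind ℂ (B m)) (zx μ a E (k * v)) x‖ ^ 2 ≤
          (e + C * ‖kp μ (L2 G) k φ x‖ + bad.indicator (fun _ => (1 : ℝ)) x) ^ 2 :=
        pow_le_pow_left₀ (norm_nonneg _) hx 2
      refine h4.trans ?_
      have h5 : (C : ℝ) ^ 2 * ‖kp μ (L2 G) k φ x‖ ^ 2 = (C * ‖kp μ (L2 G) k φ x‖) ^ 2 := by ring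
      rw [h5]
      nth_rewrite 2 [← h2]
      nlinarith [sq_nonneg (e - C * ‖kp μ (L2 G) k φ x‖), sq_nonneg (e - bad.indicator (fun _ => (1 : ℝ)) x),
        sq_nonneg (C * ‖kp μ (L2 G) k φ x‖ - bad.indicator (fun _ => (1 : ℝ)) x)]
    · have i1 : Integrable (fun x => e ^ 2 + (C : ℝ) ^ 2 * ‖kp μ (L2 G) k φ x‖ ^ 2) μ :=
        (integrable_const _).add ((xl_int _).const_mul _)
      have i2 : Integrable (fun x => bad.indicator (fun _ => (1 : ℝ)) x) μ := (integrable_const _).indicator hbm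
      rw [integral_const_mul, integral_add i1 i2, integral_add (integrable_const _) ((xl_int _).const_mul _),
        integral_const_mul, ← xl_norm_sq, LinearIsometryEquiv.norm_map, integral_indicator_const _ hbm]
      have h1 : ‖φ‖ ≤ e / (C + 1) := hn v hv
      have h2 : (C : ℝ) * ‖φ‖ ≤ e := by
        have h4 : (0 : ℝ) < (C : ℝ) + 1 := by positivity
        have h5 : (C : ℝ) * ‖φ‖ ≤ (C + 1) * (e / (C + 1)) :=
          mul_le_mul (by linarith) h1 (norm_nonneg _) h4.le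
        rwa [mul_div_cancel₀ _ h4.ne'] at h5
      have h4 : (C : ℝ) ^ 2 * ‖φ‖ ^ 2 ≤ e ^ 2 := by
        rw [← mul_pow]
        exact pow_le_pow_left₀ (by positivity) h2 2
      simp only [integral_const, probReal_univ, one_smul, smul_eq_mul, mul_one]
      nlinarith
  exact le_of_sq_le_sq hsq hε.le

theorem Sml.inv {V : Set G1} {B : ℕ → Set G} (h : Sml μ a E V B) : Sml μ a E V⁻¹ (fun n => {γ | γ⁻¹ ∈ B n}) := by
  intro ε hε
  obtain ⟨n, hn⟩ := h ε hε
  refine ⟨n, fun v hv => ?_⟩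
  have h1 := hn v⁻¹ hv
  rw [Pool.Agent.Helper84.GN.S3.X.mass_invX] at h1
  exact h1

/-- Transfer through a compact set on the right. -/
theorem Sml.right [TopologicalSpace G1] [IsTopologicalGroup G1]
    (h3 : Tendsto (fun g : G1 => μ {x | a.a g x ≠ 1}) (𝓝 1) (𝓝 0)) {K : Set G1} (hK : IsCompact K) {V : Set G1}
    {B : ℕ → Set G} (hB : Antitone B) (hc : CrsR B) (h : Sml μ a E V B) : Sml μ a E (V * K) B := by
  have h1 : Sml μ a E (K⁻¹ * V⁻¹) (fun n => {γ | γ⁻¹ ∈ B n}) := by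
    refine h.inv.left h3 hK.inv (fun m n hmn γ hγ => hB hmn hγ) (fun γ n => ?_)
    obtain ⟨m, hm⟩ := hc γ⁻¹ n
    refine ⟨m, fun x hx => ?_⟩
    change (γ * x)⁻¹ ∈ B n
    rw [mul_inv_rev]
    exact hm _ hx
  have h2 := h1.inv
  rw [mul_inv_rev, inv_inv, inv_inv] at h2
  simpa using h2

/-- Transfer through compact sets. -/
theorem Sml.both [TopologicalSpace G1] [IsTopologicalGroup G1]
    (h3 : Tendsto (fun g : G1 => μ {x | a.a g x ≠ 1}) (𝓝 1) (𝓝 0)) {K : Set G1} (hK : IsCompact K) {V : Set G1}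
    {B : ℕ → Set G} (hB : Antitone B) (hc : CrsL B) (hc' : CrsR B) (h : Sml μ a E V B) : Sml μ a E (K * V * K) B :=
  (h.left h3 hK hB hc).right h3 hK hB hc'

/-- The masses of the elements of a compact set tend to zero, uniformly. -/
theorem sml_compact [TopologicalSpace G1] [IsTopologicalGroup G1]
    (h3 : Tendsto (fun g : G1 => μ {x | a.a g x ≠ 1}) (𝓝 1) (𝓝 0)) {K : Set G1} (hK : IsCompact K)
    {B : ℕ → Set G} (hB : Antitone B) (hc : CrsL B) (h1 : ∃ n, (1 : G) ∉ B n) : Sml μ a E K B := by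
  classical
  have h : Sml μ a E {1} B := by
    intro ε hε
    obtain ⟨n, hn⟩ := h1
    refine ⟨n, ?_⟩
    rintro _ rfl
    have h2 : cl μ (ind ℂ (B n)) (zx μ a E (1 : G1)) = 0 := by
      refine xl_ext ?_
      filter_upwards [cl_apply (ind ℂ (B n)) (zx μ a E (1 : G1)), zv_apply (μ := μ) (E := E) (mea_a (a := a) 1 1⁻¹),
        Lp.coeFn_zero (L2 G) 2 μ] with x h3 h4 h5
      rw [h3, h5, zx_eq, h4, a.one, map_one]
      apply lv_ext
      intro y
      rw [ind_apply]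
      split_ifs with hy
      · change (dl (1 : G) : L2 G) y = 0
        rw [dl_apply, if_neg]
        rintro rfl
        exact hn hy
      · rfl
    rw [h2, norm_zero]
    exact hε.le
  have h2 := h.left h3 hK hB hc
  rwa [Set.mul_singleton, Set.image_congr (g := id) (fun x _ => mul_one x), Set.image_id] at h2

end Pool.Agent.Helper9.TR
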